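import Mathlib

/-!
# The boolean hierarchy of NP-partitions: definitions

Model of computation: data are binary trees `D`; `PT` is the class of polynomial time computable
functions on binary trees, given as a function algebra (constants, projections, pairing,
composition, branching, and iteration for polynomially many steps with polynomially bounded
intermediate results).
-/

set_option autoImplicit false

open Polynomial

namespace Pool.Agent.Helper26.EC

/-- Binary trees. -/
inductive D : Type
  | leaf : D
  | node : D → D → D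
  deriving DecidableEq

namespace D

/-- Number of vertices. -/
def size : D → ℕ
  | leaf => 1
  | node a b => size a + size b + 1

/-- Left subtree. -/
def fst : D → D
  | leaf => leaf
  | node a _ => a

/-- Right subtree. -/
def snd : D → D
  | leaf => leaf
  | node _ b => b

end D

open D

/-- Functions on binary trees computable in polynomial time. -/
inductive PT : (D → D) → Prop
  | id : PT (fun x => x)
  | const (c : D) : PT (fun _ => c)
  | fst : PT D.fst
  | snd : PT D.snd
  | comp {f g : D → D} (hf : PT f) (hg : PT g) : PT (fun x => f (g x))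
  | pair {f g : D → D} (hf : PT f) (hg : PT g) : PT (fun x => node (f x) (g x))
  | ite {c f g : D → D} (hc : PT c) (hf : PT f) (hg : PT g) :
      PT (fun x => if c x = leaf then f x else g x)
  | iter {f g : D → D} (hf : PT f) (hg : PT g) (p : ℕ[X])
      (bound : ∃ q : ℕ[X], ∀ x k, k ≤ p.eval (size x) → size (g^[k] (f x)) ≤ q.eval (size x)) :
      PT (fun x => g^[p.eval (size x)] (f x))

/-- Properties of binary trees decidable in polynomial time. -/
def PDec (R : D → Prop) : Prop := ∃ f, PT f ∧ ∀ x, R x ↔ f x ≠ leaf

/-- `Sig k R`: the property `R` of binary trees is in `Σ_k` of the polynomial time hierarchy: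
`Σ_0` is polynomial time, and `R` is in `Σ_(k+1)` iff `R x ↔ ∃ y, Q (x, y)` for some
polynomially balanced `Q` in `Π_k` (that is, with complement in `Σ_k`). -/
def Sig : ℕ → (D → Prop) → Prop
  | 0, R => PDec R
  | k + 1, R => ∃ (Q : D → Prop) (p : ℕ[X]), Sig k (fun z => ¬ Q z) ∧
      (∀ x y, Q (node x y) → size y ≤ p.eval (size x)) ∧ ∀ x, R x ↔ ∃ y, Q (node x y)

/-- The binary tree of a word over `{0,1}`: the list of its letters, `0` being `leaf` and `1`
being `node leaf leaf`. -/
def enc : List Bool → D
  | [] => leaf
  | b :: w => node (if b then node leaf leaf else leaf) (enc w)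

/-- The `k`-th level `Σ_k` of the polynomial time hierarchy, as a class of languages over
`{0,1}`. -/
def SigmaP (k : ℕ) : Set (Set (List Bool)) :=
  {A | ∃ R, Sig k R ∧ ∀ w, w ∈ A ↔ R (enc w)}

/-- The class NP of languages over `{0,1}`. -/
def NP : Set (Set (List Bool)) := SigmaP 1

/-- The polynomial time hierarchy collapses to one of its levels. -/
def PHCollapses : Prop := ∃ k, ∀ m, SigmaP m ⊆ SigmaP k

/-- An NP-homomorphism on a finite lattice `G` with top element. -/
structure NPHom (G : Type) [Lattice G] [OrderTop G] where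
  /-- the map -/
  S : G → Set (List Bool)
  mem_NP : ∀ a, S a ∈ NP
  top : S ⊤ = Set.univ
  inf : ∀ a b, S (a ⊓ b) = S a ∩ S b

/-- `T_S(a) = S(a) \ ⋃_{b<a} S(b)`. -/
def NPHom.T {G : Type} [Lattice G] [OrderTop G] (S : NPHom G) (a : G) : Set (List Bool) :=
  S.S a \ ⋃ b, ⋃ (_ : b < a), S.S b

/-- The partition `(G, f, S)`: its `i`-th part is the union of the `T_S(a)` with `f a = i`. -/
def NPHom.part {G K : Type} [Lattice G] [OrderTop G] (S : NPHom G) (f : G → K) (i : K) :
    Set (List Bool) :=
  ⋃ a, ⋃ (_ : f a = i), S.T a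

/-- The class `NP(G, f)` of partitions (indexed by the set `K` of labels). -/
def NPclass {G K : Type} [Lattice G] [OrderTop G] (f : G → K) : Set (K → Set (List Bool)) :=
  {A | ∃ S : NPHom G, A = S.part f}

/-- `(G, f) ≤ (G', f')`. -/
def LabLE {G G' K : Type} [Lattice G] [Lattice G'] (f : G → K) (f' : G' → K) : Prop :=
  ∃ φ : G → G', Monotone φ ∧ ∀ x, f x = f' (φ x)

/-- Fractional version of `LabLE`: probability distributions `w b` on `G'` (`b ∈ G`), such that
`w b` is supported on the elements with label `f b`, and `w b` is stochastically smaller than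
`w b'` for `b ≤ b'`. -/
def FracLE {G G' K : Type} [Lattice G] [Lattice G'] [Fintype G'] (f : G → K) (f' : G' → K) :
    Prop :=
  ∃ w : G → G' → ℝ, (∀ b c, 0 ≤ w b c) ∧ (∀ b, ∑ c, w b c = 1) ∧
    (∀ b c, w b c ≠ 0 → f' c = f b) ∧
    ∀ b b', b ≤ b' → ∀ C : Finset G', IsLowerSet (C : Set G') → ∑ c ∈ C, w b' c ≤ ∑ c ∈ C, w b c

/-- Nondeterministic polynomial time with polynomially bounded advice. -/
def NPpoly (R : D → Prop) : Prop :=
  ∃ (Q : D → Prop) (q : ℕ[X]), Sig 1 Q ∧
    ∀ n, ∃ a, size a ≤ q.eval n ∧ ∀ x, size x ≤ n → (R x ↔ Q (node a x))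

end Pool.Agent.Helper26.EC
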