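import Mathlib
import Pool.Agent.Helper26.EC.Defs

/-! Auxiliary definitions of project EC (not used in the final statements). -/

set_option autoImplicit false

namespace Pool.Agent.Helper26.EC

open D

/-- The list of a right comb. -/
def toL : D → List D
  | leaf => []
  | node a b => a :: toL b

/-- The right comb of a list. -/
def ofL : List D → D
  | [] => leaf
  | a :: l => node a (ofL l)

/-- Preorder code of a tree. -/
def cod : D → List Bool
  | leaf => [false]
  | node a b => true :: (cod a ++ cod b)

/-- The law of `h z`, where the coordinates `z i` are independent, with law `ν` for `i ∈ T` and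
law `μ` for `i ∉ T`. -/
noncomputable def law {I X J : Type} [Fintype I] [DecidableEq I] [Fintype X] [DecidableEq J]
    (μ ν : X → ℝ) (h : (I → X) → J) (T : Finset I) (j : J) : ℝ :=
  ∑ z : I → X, if h z = j then ∏ i, (if i ∈ T then ν (z i) else μ (z i)) else 0

end Pool.Agent.Helper26.EC
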