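import Mathlib
import Pool.Agent.Helper26.EC.Defs2

/-! Multiplicative weights. -/

set_option autoImplicit false

namespace Pool.Agent.Helper26.EC

open Polynomial
open D

theorem mult_weights_aux {A B : Type*} [Fintype A] (g : A → B → ℝ) (hg : ∀ a b, |g a b| ≤ 1)
    (ε : ℝ) (hε : 0 < ε) (hε1 : ε ≤ 1)
    (h : ∀ w : A → ℝ, (∀ a, 0 < w a) → ∃ b, ε * ∑ a, w a ≤ ∑ a, w a * g a b)
    (t : ℕ) :
    ∃ l : List B, l.length = t ∧
      ∑ a, Real.exp (-(ε / 2 * (l.map (g a)).sum)) ≤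
        (Fintype.card A : ℝ) * Real.exp (-(t * (ε ^ 2 / 4))) := by
  induction t with
  | zero =>
    refine ⟨[], rfl, ?_⟩
    simp
  | succ t ih =>
    obtain ⟨l, hl, hs⟩ := ih
    obtain ⟨b, hb⟩ := h (fun a => Real.exp (-(ε / 2 * (l.map (g a)).sum)))
      (fun a => Real.exp_pos _)
    refine ⟨b :: l, by simp [hl], ?_⟩
    set w : A → ℝ := fun a => Real.exp (-(ε / 2 * (l.map (g a)).sum)) with hw
    have hwpos : ∀ a, 0 < w a := fun a => Real.exp_pos _
    have hstep : ∀ a, Real.exp (-(ε / 2 * ((b :: l).map (g a)).sum)) ≤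
        w a * (1 + ε ^ 2 / 4) - ε / 2 * (w a * g a b) := by
      intro a
      have h1 : Real.exp (-(ε / 2 * ((b :: l).map (g a)).sum)) =
          w a * Real.exp (-(ε / 2 * g a b)) := by
        rw [hw]
        simp only [List.map_cons, List.sum_cons]
        rw [← Real.exp_add]
        congr 1
        ring
      have hgab := abs_le.mp (hg a b)
      have hx : |(-(ε / 2 * g a b))| ≤ 1 := by
        rw [abs_neg, abs_mul, abs_of_pos (by linarith : (0:ℝ) < ε / 2)]
        have := hg a b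
        nlinarith [abs_nonneg (g a b)]
      have h2 := Real.abs_exp_sub_one_sub_id_le hx
      have h3 : Real.exp (-(ε / 2 * g a b)) ≤ 1 - ε / 2 * g a b + (ε / 2 * g a b) ^ 2 := by
        have := (abs_le.mp h2).2
        have h4 : (-(ε / 2 * g a b)) ^ 2 = (ε / 2 * g a b) ^ 2 := by ring
        rw [h4] at this
        linarith
      have h5 : (ε / 2 * g a b) ^ 2 ≤ ε ^ 2 / 4 := by
        have h6 : (g a b) ^ 2 ≤ 1 := by
          nlinarith [hgab.1, hgab.2]
        have h7 : (ε / 2 * g a b) ^ 2 = ε ^ 2 / 4 * (g a b) ^ 2 := by ring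
        rw [h7]
        have : 0 ≤ ε ^ 2 / 4 := by positivity
        nlinarith
      rw [h1]
      calc w a * Real.exp (-(ε / 2 * g a b))
          ≤ w a * (1 - ε / 2 * g a b + ε ^ 2 / 4) :=
            mul_le_mul_of_nonneg_left (by linarith) (hwpos a).le
        _ = w a * (1 + ε ^ 2 / 4) - ε / 2 * (w a * g a b) := by ring
    have hsum : ∑ a, Real.exp (-(ε / 2 * ((b :: l).map (g a)).sum)) ≤
        (∑ a, w a) * (1 - ε ^ 2 / 4) := by
      calc ∑ a, Real.exp (-(ε / 2 * ((b :: l).map (g a)).sum))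
          ≤ ∑ a, (w a * (1 + ε ^ 2 / 4) - ε / 2 * (w a * g a b)) :=
            Finset.sum_le_sum (fun a _ => hstep a)
        _ = (∑ a, w a) * (1 + ε ^ 2 / 4) - ε / 2 * ∑ a, w a * g a b := by
            rw [Finset.sum_sub_distrib, ← Finset.sum_mul, ← Finset.mul_sum]
        _ ≤ (∑ a, w a) * (1 + ε ^ 2 / 4) - ε / 2 * (ε * ∑ a, w a) := by
            have := mul_le_mul_of_nonneg_left hb (by linarith : (0:ℝ) ≤ ε / 2)
            linarith
        _ = (∑ a, w a) * (1 - ε ^ 2 / 4) := by ring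
    have hexp : 1 - ε ^ 2 / 4 ≤ Real.exp (-(ε ^ 2 / 4)) := by
      have := Real.add_one_le_exp (-(ε ^ 2 / 4))
      linarith
    have hW : 0 ≤ ∑ a, w a := Finset.sum_nonneg (fun a _ => (hwpos a).le)
    calc ∑ a, Real.exp (-(ε / 2 * ((b :: l).map (g a)).sum))
        ≤ (∑ a, w a) * (1 - ε ^ 2 / 4) := hsum
      _ ≤ (∑ a, w a) * Real.exp (-(ε ^ 2 / 4)) := mul_le_mul_of_nonneg_left hexp hW
      _ ≤ ((Fintype.card A : ℝ) * Real.exp (-(t * (ε ^ 2 / 4)))) * Real.exp (-(ε ^ 2 / 4)) :=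
          mul_le_mul_of_nonneg_right hs (Real.exp_pos _).le
      _ = (Fintype.card A : ℝ) * Real.exp (-((t + 1 : ℕ) * (ε ^ 2 / 4))) := by
          rw [mul_assoc, ← Real.exp_add]
          congr 2
          push_cast
          ring

theorem mult_weights {A B : Type*} [Fintype A] (g : A → B → ℝ) (hg : ∀ a b, |g a b| ≤ 1)
    (ε : ℝ) (hε : 0 < ε) (hε1 : ε ≤ 1)
    (h : ∀ w : A → ℝ, (∀ a, 0 < w a) → ∃ b, ε * ∑ a, w a ≤ ∑ a, w a * g a b)
    (t : ℕ) (ht : 4 * Real.log (Fintype.card A) < t * ε ^ 2) :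
    ∃ l : List B, l.length = t ∧ ∀ a, 0 < (l.map (g a)).sum := by
  obtain ⟨l, hl, hs⟩ := mult_weights_aux g hg ε hε hε1 h t
  refine ⟨l, hl, fun a => ?_⟩
  by_contra hcon
  push Not at hcon
  have h1 : 1 ≤ Real.exp (-(ε / 2 * (l.map (g a)).sum)) := by
    apply Real.one_le_exp
    nlinarith
  have h2 : Real.exp (-(ε / 2 * (l.map (g a)).sum)) ≤
      ∑ a, Real.exp (-(ε / 2 * (l.map (g a)).sum)) :=
    Finset.single_le_sum (f := fun a => Real.exp (-(ε / 2 * (l.map (g a)).sum)))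
      (fun a _ => (Real.exp_pos _).le) (Finset.mem_univ a)
  have h3 : 1 ≤ (Fintype.card A : ℝ) * Real.exp (-(t * (ε ^ 2 / 4))) := by linarith
  have hcard : (0:ℝ) < Fintype.card A := by
    have : 0 < Fintype.card A := Fintype.card_pos_iff.mpr ⟨a⟩
    exact_mod_cast this
  have h4 := Real.log_le_log one_pos h3
  rw [Real.log_one, Real.log_mul hcard.ne' (Real.exp_pos _).ne', Real.log_exp] at h4
  nlinarith

end Pool.Agent.Helper26.EC
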