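import Mathlib
import Pool.Agent.Helper26.EC.Defs2

/-!
# Basic closure properties of polynomial time functions on binary trees
-/

set_option autoImplicit false

open Polynomial

namespace Pool.Agent.Helper26.EC

open D

theorem eval_mono (p : ℕ[X]) {a b : ℕ} (h : a ≤ b) : p.eval a ≤ p.eval b := by
  rw [Polynomial.eval_eq_sum_range, Polynomial.eval_eq_sum_range]
  exact Finset.sum_le_sum fun i _ => Nat.mul_le_mul_left _ (Nat.pow_le_pow_left h i)

theorem one_le_size (x : D) : 1 ≤ size x := by
  cases x with
  | leaf => exact le_rfl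
  | node a b => simp [size]

theorem size_fst_le (x : D) : size (D.fst x) ≤ size x := by
  cases x with
  | leaf => exact le_rfl
  | node a b => simp only [D.fst, size]; omega

theorem size_snd_le (x : D) : size (D.snd x) ≤ size x := by
  cases x with
  | leaf => exact le_rfl
  | node a b => simp only [D.snd, size]; omega

theorem PT.bdd {f : D → D} (h : PT f) : ∃ q : ℕ[X], ∀ x, size (f x) ≤ q.eval (size x) := by
  induction h with
  | id => exact ⟨X, fun x => by simp⟩
  | const c => exact ⟨C (size c), fun x => by simp⟩
  | fst => exact ⟨X, fun x => by simpa using size_fst_le x⟩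
  | snd => exact ⟨X, fun x => by simpa using size_snd_le x⟩
  | comp _ _ ihf ihg =>
    obtain ⟨qf, hqf⟩ := ihf
    obtain ⟨qg, hqg⟩ := ihg
    refine ⟨qf.comp qg, fun x => ?_⟩
    rw [Polynomial.eval_comp]
    exact (hqf _).trans (eval_mono qf (hqg x))
  | pair _ _ ihf ihg =>
    obtain ⟨qf, hqf⟩ := ihf
    obtain ⟨qg, hqg⟩ := ihg
    refine ⟨qf + qg + 1, fun x => ?_⟩
    have h1 := hqf x
    have h2 := hqg x
    simp only [size, Polynomial.eval_add, Polynomial.eval_one]
    omega
  | ite _ _ _ _ ihf ihg =>
    obtain ⟨qf, hqf⟩ := ihf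
    obtain ⟨qg, hqg⟩ := ihg
    refine ⟨qf + qg, fun x => ?_⟩
    have h1 := hqf x
    have h2 := hqg x
    simp only [Polynomial.eval_add]
    split_ifs
    · omega
    · omega
  | iter _ _ p bound _ _ =>
    obtain ⟨q, hq⟩ := bound
    exact ⟨q, fun x => hq x _ le_rfl⟩

theorem PT.congr {f g : D → D} (h : PT f) (hfg : ∀ x, f x = g x) : PT g := by
  have e : f = g := funext hfg
  rwa [← e]

theorem toL_ofL (l : List D) : toL (ofL l) = l := by
  induction l with
  | nil => rfl
  | cons a l ih => simp only [ofL, toL, ih]

theorem length_toL_le (r : D) : (toL r).length ≤ size r := by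
  induction r with
  | leaf => simp [toL]
  | node a b _ ihb => simp only [toL, size, List.length_cons]; omega

/-- One step of the fold machine; a state is `node x (node acc rest)`. -/
def foldStep (s : D → D) (σ : D) : D :=
  if D.snd (D.snd σ) = leaf then σ
  else node (D.fst σ) (node (s (node (D.fst σ) (node (D.fst (D.snd σ))
    (D.fst (D.snd (D.snd σ)))))) (D.snd (D.snd (D.snd σ))))

theorem PT.foldStep {s : D → D} (hs : PT s) : PT (foldStep s) := by
  have h2 : PT (fun σ => D.snd (D.snd σ)) := PT.comp PT.snd PT.snd
  have h3 : PT (fun σ => D.fst (D.snd σ)) := PT.comp PT.fst PT.snd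
  exact PT.ite h2 PT.id (PT.pair PT.fst (PT.pair (PT.comp hs
    (PT.pair PT.fst (PT.pair h3 (PT.comp PT.fst h2)))) (PT.comp PT.snd h2)))

theorem foldStep_iterate (s : D → D) (x : D) (k : ℕ) : ∀ acc r : D,
    (foldStep s)^[k] (node x (node acc r)) =
      node x (node (((toL r).take k).foldl (fun acc a => s (node x (node acc a))) acc)
        (D.snd^[k] r)) := by
  induction k with
  | zero => intro acc r; simp
  | succ k ih =>
    intro acc r
    cases r with
    | leaf =>
      have h0 : foldStep s (node x (node acc leaf)) = node x (node acc leaf) := by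
        simp [foldStep, D.snd]
      rw [Function.iterate_succ_apply, h0, ih]
      simp [toL, Function.iterate_succ_apply, D.snd]
    | node a b =>
      have h0 : foldStep s (node x (node acc (node a b))) =
          node x (node (s (node x (node acc a))) b) := by
        simp [foldStep, D.snd, D.fst]
      rw [Function.iterate_succ_apply, h0, ih]
      simp [toL, Function.iterate_succ_apply, D.snd]

theorem size_iterate_snd_le (k : ℕ) (r : D) : size (D.snd^[k] r) ≤ size r := by
  induction k generalizing r with
  | zero => simp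
  | succ k ih =>
    rw [Function.iterate_succ_apply]
    exact (ih _).trans (size_snd_le r)

/-- Folding a polynomial time step over a list. -/
theorem PT.foldl {s i l : D → D} (hs : PT s) (hi : PT i) (hl : PT l)
    (bound : ∃ q : ℕ[X], ∀ x l', l' <+: toL (l x) →
      size (l'.foldl (fun acc a => s (node x (node acc a))) (i x)) ≤ q.eval (size x)) :
    PT (fun x => (toL (l x)).foldl (fun acc a => s (node x (node acc a))) (i x)) := by
  obtain ⟨q, hq⟩ := bound
  obtain ⟨ql, hql⟩ := hl.bdd
  have hI : PT (fun x => node x (node (i x) (l x))) := PT.pair PT.id (PT.pair hi hl)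
  have hit := PT.iter hI (PT.foldStep hs) ql ⟨X + q + ql + 2, fun x k _ => by
    rw [foldStep_iterate]
    have h1 := hq x _ (List.take_prefix k (toL (l x)))
    have h2 := (size_iterate_snd_le k (l x)).trans (hql x)
    simp only [size, Polynomial.eval_add, Polynomial.eval_X, Polynomial.eval_ofNat]
    omega⟩
  refine (PT.comp (PT.comp PT.fst PT.snd) hit).congr fun x => ?_
  rw [foldStep_iterate, List.take_of_length_le ((length_toL_le _).trans (hql x))]
  rfl

/-- Folding when each step increases the size by at most a polynomial. -/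
theorem PT.foldl_of_add {s i l : D → D} (hs : PT s) (hi : PT i) (hl : PT l) (q : ℕ[X])
    (bound : ∀ x acc a, a ∈ toL (l x) →
      size (s (node x (node acc a))) ≤ size acc + q.eval (size x)) :
    PT (fun x => (toL (l x)).foldl (fun acc a => s (node x (node acc a))) (i x)) := by
  obtain ⟨ql, hql⟩ := hl.bdd
  obtain ⟨qi, hqi⟩ := hi.bdd
  refine PT.foldl hs hi hl ⟨qi + ql * q, fun x l' hl' => ?_⟩
  have key : ∀ (m : List D) (acc : D), (∀ a ∈ m, a ∈ toL (l x)) →
      size (m.foldl (fun acc a => s (node x (node acc a))) acc) ≤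
        size acc + m.length * q.eval (size x) := by
    intro m
    induction m with
    | nil => intro acc _; simp
    | cons a m ih =>
      intro acc hm
      rw [List.foldl_cons]
      have h1 := ih (s (node x (node acc a))) (fun b hb => hm b (List.mem_cons_of_mem _ hb))
      have h2 := bound x acc a (hm a List.mem_cons_self)
      rw [List.length_cons, Nat.succ_mul]
      omega
  have h1 := key l' (i x) (fun a ha => hl'.subset ha)
  have h2 : l'.length ≤ ql.eval (size x) :=
    (hl'.length_le.trans (length_toL_le _)).trans (hql x)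
  have h3 := Nat.mul_le_mul_right (q.eval (size x)) h2
  have h4 := hqi x
  simp only [Polynomial.eval_add, Polynomial.eval_mul]
  omega

theorem exists_clock (q : ℕ[X]) : ∃ c, PT c ∧ ∀ x, q.eval (size x) ≤ size (c x) := by
  have key : ∀ k : ℕ, size ((fun y : D => node leaf y)^[k] leaf) = 1 + 2 * k := by
    intro k
    induction k with
    | zero => rfl
    | succ k ih =>
      rw [Function.iterate_succ_apply']
      simp only [size]
      rw [ih]
      omega
  refine ⟨fun x => (fun y : D => node leaf y)^[q.eval (size x)] leaf,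
    PT.iter (f := fun _ => leaf) (PT.const leaf) (PT.pair (PT.const leaf) PT.id) q
      ⟨1 + 2 * q, fun x k hk => ?_⟩, fun x => ?_⟩
  · have h := key k
    simp only [Polynomial.eval_add, Polynomial.eval_one, Polynomial.eval_mul,
      Polynomial.eval_ofNat]
    omega
  · have h := key (q.eval (size x))
    show q.eval (size x) ≤ size ((fun y : D => node leaf y)^[q.eval (size x)] leaf)
    omega

theorem PDec.comp {R : D → Prop} {f : D → D} (h : PDec R) (hf : PT f) :
    PDec (fun x => R (f x)) := by
  obtain ⟨c, hc, hR⟩ := h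
  exact ⟨fun x => c (f x), PT.comp hc hf, fun x => hR (f x)⟩

theorem PDec.not {R : D → Prop} (h : PDec R) : PDec (fun x => ¬ R x) := by
  obtain ⟨c, hc, hR⟩ := h
  refine ⟨fun x => if c x = leaf then node leaf leaf else leaf,
    PT.ite hc (PT.const _) (PT.const _), fun x => ?_⟩
  beta_reduce
  rw [hR x]
  by_cases hx : c x = leaf
  · simp [hx]
  · simp [hx]

theorem PDec.and {R R' : D → Prop} (h : PDec R) (h' : PDec R') : PDec (fun x => R x ∧ R' x) := by
  obtain ⟨c, hc, hR⟩ := h
  obtain ⟨c', hc', hR'⟩ := h'
  refine ⟨fun x => if c x = leaf then leaf else c' x, PT.ite hc (PT.const _) hc', fun x => ?_⟩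
  beta_reduce
  rw [hR x, hR' x]
  by_cases hx : c x = leaf
  · simp [hx]
  · simp [hx]

theorem PDec.or {R R' : D → Prop} (h : PDec R) (h' : PDec R') : PDec (fun x => R x ∨ R' x) := by
  obtain ⟨c, hc, hR⟩ := h
  obtain ⟨c', hc', hR'⟩ := h'
  refine ⟨fun x => if c x = leaf then c' x else c x, PT.ite hc hc' hc, fun x => ?_⟩
  beta_reduce
  rw [hR x, hR' x]
  by_cases hx : c x = leaf
  · simp [hx]
  · simp [hx]

theorem PDec.eq_const {f : D → D} (hf : PT f) (c : D) : PDec (fun x => f x = c) := by
  induction c generalizing f with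
  | leaf =>
    have h : PDec (fun x => f x ≠ leaf) := ⟨f, hf, fun x => Iff.rfl⟩
    obtain ⟨e, he, hR⟩ := h.not
    exact ⟨e, he, fun x => by rw [← hR x]; exact not_not.symm⟩
  | node a b iha ihb =>
    have h : PDec (fun x => f x ≠ leaf) := ⟨f, hf, fun x => Iff.rfl⟩
    obtain ⟨e, he, hR⟩ := h.and ((iha (PT.comp PT.fst hf)).and (ihb (PT.comp PT.snd hf)))
    refine ⟨e, he, fun x => ?_⟩
    rw [← hR x]
    beta_reduce
    cases hx : f x with
    | leaf => simp
    | node a' b' => simp [D.fst, D.snd]

/-- The characteristic function of a decidable property can be used in `PT`. -/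
theorem PDec.ite {R : D → Prop} {f g : D → D} (h : PDec R) (hf : PT f) (hg : PT g) :
    ∃ e, PT e ∧ ∀ x, (R x → e x = f x) ∧ (¬ R x → e x = g x) := by
  obtain ⟨c, hc, hR⟩ := h
  refine ⟨fun x => if c x = leaf then g x else f x, PT.ite hc hg hf, fun x => ⟨fun hx => ?_,
    fun hx => ?_⟩⟩
  · have h1 := (hR x).1 hx
    simp [h1]
  · have h1 : c x = leaf := by
      by_contra h2
      exact hx ((hR x).2 h2)
    simp [h1]

end Pool.Agent.Helper26.EC
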