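import Mathlib
import Pool.Agent.Helper26.EC.Defs2

/-!
# Comparison of sizes in polynomial time
-/

set_option autoImplicit false

open Polynomial

namespace Pool.Agent.Helper26.EC

open D

namespace SizeLE

/-- Number of inner vertices. -/
def inn : D → ℕ
  | leaf => 0
  | node a b => inn a + inn b + 1

theorem size_eq (t : D) : size t = 2 * inn t + 1 := by
  induction t with
  | leaf => rfl
  | node a b ha hb => simp only [size, inn, ha, hb]; ring

/-- Length of the right spine. -/
def spine : D → ℕ
  | leaf => 0
  | node _ b => spine b + 1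

theorem spine_le (t : D) : spine t ≤ inn t := by
  induction t with
  | leaf => exact le_rfl
  | node a b ha hb => simp only [spine, inn]; omega

/-- The right comb with `n` inner vertices. -/
def comb : ℕ → D
  | 0 => leaf
  | n + 1 => node leaf (comb n)

/-- One step of the transformation of a tree into a right comb. -/
def step (s : D) : D :=
  if s.fst = leaf then s else if s.fst.fst = leaf then node s.fst.snd (node leaf s.snd)
  else node (node s.fst.fst.fst (node s.fst.fst.snd s.fst.snd)) s.snd

theorem step_leaf (b : D) : step (node leaf b) = node leaf b := by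
  simp [step, D.fst]

theorem step_node_leaf (b c : D) : step (node (node leaf b) c) = node b (node leaf c) := by
  simp [step, D.fst, D.snd]

theorem step_node_node (a a' b c : D) :
    step (node (node (node a a') b) c) = node (node a (node a' b)) c := by
  simp [step, D.fst, D.snd]

theorem size_step (s : D) : size (step s) = size s := by
  rcases s with _ | ⟨_ | ⟨_ | ⟨a, a'⟩, b⟩, c⟩
  · simp [step, D.fst]
  · rw [step_leaf]
  · rw [step_node_leaf]
    simp only [size]
    omega
  · rw [step_node_node]
    simp only [size]
    omega

theorem size_iter_step (k : ℕ) (s : D) : size (step^[k] s) = size s := by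
  induction k generalizing s with
  | zero => rfl
  | succ k ih => rw [Function.iterate_succ_apply, ih, size_step]

theorem iter_step (k : ℕ) : ∀ (t : D) (j : ℕ), 2 * inn t ≤ k + spine t →
    step^[k] (node t (comb j)) = node leaf (comb (j + inn t)) := by
  induction k with
  | zero =>
    intro t j h
    rcases t with _ | ⟨a, b⟩
    · rfl
    · have h1 := spine_le (node a b)
      have h2 : 0 < inn (node a b) := by simp only [inn]; omega
      omega
  | succ k ih =>
    intro t j h
    rw [Function.iterate_succ_apply]
    rcases t with _ | ⟨_ | ⟨a, a'⟩, b⟩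
    · rw [step_leaf]
      exact ih leaf j (by simp [inn])
    · rw [step_node_leaf]
      have h1 := ih b (j + 1) (by simp only [inn, spine] at h; omega)
      rw [comb] at h1
      rw [h1]
      congr 2
      simp only [inn]
      omega
    · rw [step_node_node]
      have h1 := ih (node a (node a' b)) j (by simp only [inn, spine] at h ⊢; omega)
      rw [h1]
      congr 2
      simp only [inn]
      omega

theorem PT_step : PT step := by
  refine PT.ite PT.fst PT.id (PT.ite (PT.comp PT.fst PT.fst) ?_ ?_)
  · exact PT.pair (PT.comp PT.snd PT.fst) (PT.pair (PT.const leaf) PT.snd)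
  · exact PT.pair (PT.pair (PT.comp PT.fst (PT.comp PT.fst PT.fst))
      (PT.pair (PT.comp PT.snd (PT.comp PT.fst PT.fst)) (PT.comp PT.snd PT.fst))) PT.snd

/-- The right comb of the same size. -/
noncomputable def toComb (x : D) : D := D.snd (step^[(X : ℕ[X]).eval (size x)] (node x leaf))

theorem toComb_eq (x : D) : toComb x = comb (inn x) := by
  have h := iter_step (size x) x 0 (by rw [size_eq]; omega)
  rw [comb, Nat.zero_add] at h
  simp only [toComb, Polynomial.eval_X]
  rw [h]
  rfl

theorem PT_toComb : PT toComb := by
  refine PT.comp (f := D.snd) (g := fun x => step^[(X : ℕ[X]).eval (size x)] (node x leaf))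
    PT.snd (PT.iter (PT.pair PT.id (PT.const leaf)) PT_step X ⟨X + C 2, ?_⟩)
  intro x k _
  rw [size_iter_step]
  simp only [size, eval_add, eval_X, eval_C]
  omega

/-- One step of the comparison of two combs. -/
def cstep (s : D) : D :=
  if s.fst = leaf then s else if s.snd = leaf then s else node s.fst.snd s.snd.snd

theorem size_snd_le (t : D) : size t.snd ≤ size t := by
  rcases t with _ | ⟨a, b⟩
  · exact le_rfl
  · simp only [D.snd, size]
    omega

theorem size_fst_le (t : D) : size t.fst ≤ size t := by
  rcases t with _ | ⟨a, b⟩
  · exact le_rfl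
  · simp only [D.fst, size]
    omega

theorem size_cstep_le (s : D) : size (cstep s) ≤ size s := by
  rcases s with _ | ⟨a, b⟩
  · simp [cstep, D.fst]
  · unfold cstep
    split_ifs
    · exact le_rfl
    · exact le_rfl
    · have h1 := size_snd_le a
      have h2 := size_snd_le b
      simp only [D.fst, D.snd, size] at h1 h2 ⊢
      omega

theorem size_iter_cstep_le (k : ℕ) (s : D) : size (cstep^[k] s) ≤ size s := by
  induction k generalizing s with
  | zero => exact le_rfl
  | succ k ih =>
    rw [Function.iterate_succ_apply]
    exact (ih _).trans (size_cstep_le s)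

theorem iter_cstep (k : ℕ) : ∀ a b : ℕ, a ≤ k →
    (D.fst (cstep^[k] (node (comb a) (comb b))) = leaf ↔ a ≤ b) := by
  induction k with
  | zero =>
    intro a b h
    obtain rfl : a = 0 := by omega
    simp [D.fst, comb]
  | succ k ih =>
    intro a b h
    rw [Function.iterate_succ_apply]
    rcases a with _ | a
    · have h1 : cstep (node (comb 0) (comb b)) = node (comb 0) (comb b) := by
        simp [cstep, D.fst, comb]
      rw [h1]
      exact ih 0 b (by omega)
    · rcases b with _ | b
      · have h1 : cstep (node (comb (a + 1)) (comb 0)) = node (comb (a + 1)) (comb 0) := by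
          simp [cstep, D.fst, D.snd, comb]
        rw [h1, Function.iterate_fixed h1]
        simp [D.fst, comb]
      · have h1 : cstep (node (comb (a + 1)) (comb (b + 1))) = node (comb a) (comb b) := by
          simp [cstep, D.fst, D.snd, comb]
        rw [h1, ih a b (by omega)]
        omega

theorem PT_cstep : PT cstep :=
  PT.ite PT.fst PT.id (PT.ite PT.snd PT.id
    (PT.pair (PT.comp PT.snd PT.fst) (PT.comp PT.snd PT.snd)))

theorem bdd {f : D → D} (h : PT f) : ∃ q : ℕ[X], ∀ x, size (f x) ≤ q.eval (size x) := by
  induction h with
  | id => exact ⟨X, fun x => by simp⟩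
  | const c => exact ⟨C (size c), fun x => by simp⟩
  | fst => exact ⟨X, fun x => by simpa using size_fst_le x⟩
  | snd => exact ⟨X, fun x => by simpa using size_snd_le x⟩
  | comp hf hg ihf ihg =>
    obtain ⟨p, hp⟩ := ihf
    obtain ⟨q, hq⟩ := ihg
    refine ⟨p.comp q, fun x => (hp _).trans ?_⟩
    rw [eval_comp]
    have hmono : ∀ (p : ℕ[X]) {a b : ℕ}, a ≤ b → p.eval a ≤ p.eval b := by
      intro p a b hab
      rw [eval_eq_sum_range, eval_eq_sum_range]
      exact Finset.sum_le_sum fun i _ => Nat.mul_le_mul_left _ (Nat.pow_le_pow_left hab i)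
    exact hmono p (hq x)
  | pair hf hg ihf ihg =>
    obtain ⟨p, hp⟩ := ihf
    obtain ⟨q, hq⟩ := ihg
    refine ⟨p + q + 1, fun x => ?_⟩
    have h1 := hp x
    have h2 := hq x
    simp only [size, eval_add, eval_one]
    omega
  | ite hc hf hg ihc ihf ihg =>
    obtain ⟨p, hp⟩ := ihf
    obtain ⟨q, hq⟩ := ihg
    refine ⟨p + q, fun x => ?_⟩
    have h1 := hp x
    have h2 := hq x
    simp only [eval_add]
    split_ifs <;> omega
  | iter hf hg p bound ihf ihg =>
    obtain ⟨q, hq⟩ := bound
    exact ⟨q, fun x => hq x _ le_rfl⟩

end SizeLE

open SizeLE in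
theorem PDec.sizeLE {f g : D → D} (hf : PT f) (hg : PT g) :
    PDec (fun x => size (f x) ≤ size (g x)) := by
  obtain ⟨p, hp⟩ := SizeLE.bdd hf
  obtain ⟨q, hq⟩ := SizeLE.bdd hg
  have hcomb : ∀ x, size (toComb x) = size x := by
    intro x
    rw [toComb_eq]
    have : ∀ n, inn (comb n) = n := by
      intro n
      induction n with
      | zero => rfl
      | succ n ih => simp only [comb, inn, ih]; omega
    rw [size_eq, this, size_eq]
  have hF : PT (fun x => cstep^[p.eval (size x)] (node (toComb (f x)) (toComb (g x)))) := by
    refine PT.iter (PT.pair (PT.comp PT_toComb hf) (PT.comp PT_toComb hg)) PT_cstep p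
      ⟨p + q + 1, ?_⟩
    intro x k _
    refine (size_iter_cstep_le _ _).trans ?_
    have h1 := hp x
    have h2 := hq x
    simp only [size, hcomb, eval_add, eval_one]
    omega
  refine ⟨fun x => if D.fst (cstep^[p.eval (size x)] (node (toComb (f x)) (toComb (g x)))) = leaf
    then node leaf leaf else leaf, ?_, ?_⟩
  · exact PT.ite (PT.comp PT.fst hF) (PT.const _) (PT.const _)
  · intro x
    have h1 : D.fst (cstep^[p.eval (size x)] (node (toComb (f x)) (toComb (g x)))) = leaf ↔
        inn (f x) ≤ inn (g x) := by
      rw [toComb_eq, toComb_eq]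
      refine iter_cstep _ _ _ ?_
      have h2 := hp x
      rw [size_eq] at h2
      omega
    have h3 : size (f x) ≤ size (g x) ↔ inn (f x) ≤ inn (g x) := by
      rw [size_eq, size_eq]
      omega
    change size (f x) ≤ size (g x) ↔ (if D.fst (cstep^[p.eval (size x)]
      (node (toComb (f x)) (toComb (g x)))) = leaf then node leaf leaf else leaf) ≠ leaf
    rw [h3, ← h1]
    constructor
    · intro h
      simp [h]
    · intro h
      by_contra h4
      simp [h4] at h

end Pool.Agent.Helper26.EC
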