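import Mathlib
import Pool.Agent.Helper26.EC.Defs2
import Pool.Agent.Helper26.EC.Basic
import Pool.Agent.Helper26.EC.SizeLE

/-!
# Closure properties of the classes `Sig k`
-/

set_option autoImplicit false

open Polynomial

namespace Pool.Agent.Helper26.EC

open D

theorem Sig.congr {k : ℕ} {R R' : D → Prop} (h : Sig k R) (hR : ∀ x, R x ↔ R' x) : Sig k R' := by
  have : R = R' := funext fun x => propext (hR x)
  rwa [← this]

/-- The pairing of two polynomial time functions of a pair. -/
theorem PT.pr {f g : D → D} (hf : PT f) (hg : PT g) : PT (fun z => node (f z) (g z)) :=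
  PT.pair hf hg

theorem size_le_fst_snd (y : D) : size y ≤ size (D.fst y) + size (D.snd y) + 1 := by
  cases y with
  | leaf => simp only [D.fst, D.snd, size]; omega
  | node a b => simp only [D.fst, D.snd, size]; omega

theorem Sig.comp {k : ℕ} {R : D → Prop} {f : D → D} (h : Sig k R) (hf : PT f) :
    Sig k (fun x => R (f x)) := by
  induction k generalizing R f with
  | zero => exact PDec.comp h hf
  | succ k ih =>
    obtain ⟨Q, p, hQ, hb, hR⟩ := h
    obtain ⟨q, hq⟩ := hf.bdd
    refine ⟨fun z => Q (node (f (D.fst z)) (D.snd z)), p.comp q, ?_, ?_, ?_⟩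
    · exact ih (R := fun z => ¬ Q z) (f := fun z => node (f (D.fst z)) (D.snd z)) hQ
        (PT.pair (PT.comp hf PT.fst) PT.snd)
    · intro x y hxy
      have h1 : size y ≤ p.eval (size (f x)) := hb (f x) y hxy
      rw [eval_comp]
      exact h1.trans (eval_mono p (hq x))
    · intro x
      exact hR (f x)

theorem PDec.sig {R : D → Prop} (h : PDec R) (k : ℕ) : Sig k R := by
  induction k generalizing R with
  | zero => exact h
  | succ k ih =>
    refine ⟨fun z => R (D.fst z) ∧ D.snd z = leaf, 1, ?_, ?_, ?_⟩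
    · exact ih ((PDec.and (PDec.comp h PT.fst) (PDec.eq_const PT.snd leaf)).not)
    · rintro x y ⟨-, hy⟩
      have hy' : y = leaf := hy
      rw [hy']
      simp [size]
    · intro x
      exact ⟨fun hx => ⟨leaf, hx, rfl⟩, fun ⟨y, hy, _⟩ => hy⟩

theorem Sig.and_or (k : ℕ) : ∀ {R R' : D → Prop}, Sig k R → Sig k R' →
    Sig k (fun x => R x ∧ R' x) ∧ Sig k (fun x => R x ∨ R' x) := by
  induction k with
  | zero => intro R R' h h'; exact ⟨PDec.and h h', PDec.or h h'⟩
  | succ k ih =>
    rintro R R' ⟨Q, p, hQ, hb, hR⟩ ⟨Q', p', hQ', hb', hR'⟩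
    constructor
    · refine ⟨fun z => Q (node (D.fst z) (D.fst (D.snd z))) ∧
        Q' (node (D.fst z) (D.snd (D.snd z))), p + p' + 1, ?_, ?_, ?_⟩
      · have h1 : Sig k (fun z => ¬ Q (node (D.fst z) (D.fst (D.snd z)))) :=
          Sig.comp (R := fun z => ¬ Q z) hQ (PT.pair PT.fst (PT.comp PT.fst PT.snd))
        have h2 : Sig k (fun z => ¬ Q' (node (D.fst z) (D.snd (D.snd z)))) :=
          Sig.comp (R := fun z => ¬ Q' z) hQ' (PT.pair PT.fst (PT.comp PT.snd PT.snd))
        exact (ih h1 h2).2.congr fun x => by tauto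
      · rintro x y ⟨h1, h2⟩
        have e1 : size (D.fst y) ≤ p.eval (size x) := hb x (D.fst y) h1
        have e2 : size (D.snd y) ≤ p'.eval (size x) := hb' x (D.snd y) h2
        have e3 := size_le_fst_snd y
        rw [eval_add, eval_add, eval_one]
        omega
      · intro x
        show R x ∧ R' x ↔ _
        rw [hR, hR']
        constructor
        · rintro ⟨⟨y1, h1⟩, y2, h2⟩
          exact ⟨node y1 y2, h1, h2⟩
        · rintro ⟨y, h1, h2⟩
          exact ⟨⟨_, h1⟩, _, h2⟩
    · refine ⟨fun z => Q z ∨ Q' z, p + p', ?_, ?_, ?_⟩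
      · exact (ih hQ hQ').1.congr fun x => by tauto
      · rintro x y (h1 | h1)
        · have := hb x y h1
          rw [eval_add]; omega
        · have := hb' x y h1
          rw [eval_add]; omega
      · intro x
        show R x ∨ R' x ↔ ∃ y, Q (node x y) ∨ Q' (node x y)
        rw [hR, hR', exists_or]

theorem Sig.and {k : ℕ} {R R' : D → Prop} (h : Sig k R) (h' : Sig k R') :
    Sig k (fun x => R x ∧ R' x) := (Sig.and_or k h h').1

theorem Sig.or {k : ℕ} {R R' : D → Prop} (h : Sig k R) (h' : Sig k R') :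
    Sig k (fun x => R x ∨ R' x) := (Sig.and_or k h h').2

theorem Sig.succ {k : ℕ} {R : D → Prop} (h : Sig k R) : Sig (k + 1) R := by
  induction k generalizing R with
  | zero => exact PDec.sig h 1
  | succ k ih =>
    obtain ⟨Q, p, hQ, hb, hR⟩ := h
    exact ⟨Q, p, ih hQ, hb, hR⟩

theorem Sig.succ_of_not {k : ℕ} {R : D → Prop} (h : Sig k (fun x => ¬ R x)) :
    Sig (k + 1) R := by
  refine ⟨fun z => R (D.fst z) ∧ D.snd z = leaf, 1, ?_, ?_, ?_⟩
  · have h1 : Sig k (fun z => ¬ R (D.fst z)) := Sig.comp (R := fun z => ¬ R z) h PT.fst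
    have h2 : Sig k (fun z => ¬ D.snd z = leaf) := (PDec.eq_const PT.snd leaf).not.sig k
    exact (h1.or h2).congr fun x => by tauto
  · rintro x y ⟨-, hy⟩
    have hy' : y = leaf := hy
    rw [hy']
    simp [size]
  · intro x
    exact ⟨fun hx => ⟨leaf, hx, rfl⟩, fun ⟨y, hy, _⟩ => hy⟩

theorem Sig.ex {k : ℕ} {R : D → Prop} (h : Sig (k + 1) R) (p : ℕ[X])
    (hb : ∀ x y, R (node x y) → size y ≤ p.eval (size x)) :
    Sig (k + 1) (fun x => ∃ y, R (node x y)) := by
  obtain ⟨Q, q, hQ, hq, hR⟩ := h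
  refine ⟨fun z => Q (node (node (D.fst z) (D.fst (D.snd z))) (D.snd (D.snd z))),
    p + q.comp (X + p + 1) + 1, ?_, ?_, ?_⟩
  · exact Sig.comp (R := fun z => ¬ Q z) hQ
      (PT.pair (PT.pair PT.fst (PT.comp PT.fst PT.snd)) (PT.comp PT.snd PT.snd))
  · intro x y hxy
    have hxy' : Q (node (node x (D.fst y)) (D.snd y)) := hxy
    have h1 : R (node x (D.fst y)) := (hR _).mpr ⟨_, hxy'⟩
    have h2 := hb _ _ h1
    have h3 := hq _ _ hxy'
    have h4 : q.eval (size (node x (D.fst y))) ≤ q.eval (size x + p.eval (size x) + 1) := by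
      apply eval_mono
      simp only [size]
      omega
    have h5 := size_le_fst_snd y
    rw [eval_add, eval_add, eval_comp, eval_add, eval_add, eval_X, eval_one]
    omega
  · intro x
    constructor
    · rintro ⟨y, hy⟩
      obtain ⟨w, hw⟩ := (hR _).mp hy
      exact ⟨node y w, hw⟩
    · rintro ⟨y, hy⟩
      exact ⟨D.fst y, (hR _).mpr ⟨_, hy⟩⟩

theorem Sig.exBdd {k : ℕ} {R : D → Prop} {c : D → D} (h : Sig (k + 1) R) (hc : PT c) :
    Sig (k + 1) (fun x => ∃ y, size y ≤ size (c x) ∧ R (node x y)) := by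
  obtain ⟨q, hq⟩ := hc.bdd
  have h1 : Sig (k + 1) (fun z => size (D.snd z) ≤ size (c (D.fst z)) ∧ R z) :=
    ((PDec.sizeLE PT.snd (PT.comp hc PT.fst)).sig (k + 1)).and h
  exact h1.ex q fun x y hxy => hxy.1.trans (hq x)

/-- Bounded universal quantification preserves `Π_(k+1)`. -/
theorem Sig.allBdd {k : ℕ} {R : D → Prop} {c : D → D} (h : Sig (k + 1) (fun x => ¬ R x))
    (hc : PT c) :
    Sig (k + 1) (fun x => ¬ ∀ y, size y ≤ size (c x) → R (node x y)) :=
  (h.exBdd hc).congr fun x => by push Not; rfl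

theorem Sig.exists_finset {k : ℕ} {ι : Type} [DecidableEq ι] {R : ι → D → Prop}
    (h : ∀ i, Sig k (R i)) (s : Finset ι) : Sig k (fun x => ∃ i ∈ s, R i x) := by
  induction s using Finset.induction_on with
  | empty =>
    refine ((PDec.eq_const (PT.const leaf) (node leaf leaf)).sig k).congr fun x => ?_
    simp
  | insert i s _ ih =>
    refine ((h i).or ih).congr fun x => ?_
    simp

theorem Sig.forall_finset {k : ℕ} {ι : Type} [DecidableEq ι] {R : ι → D → Prop}
    (h : ∀ i, Sig k (R i)) (s : Finset ι) : Sig k (fun x => ∀ i ∈ s, R i x) := by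
  induction s using Finset.induction_on with
  | empty =>
    refine ((PDec.eq_const (PT.const leaf) leaf).sig k).congr fun x => ?_
    simp
  | insert i s _ ih =>
    refine ((h i).and ih).congr fun x => ?_
    simp

theorem Sig.exists_finite {k : ℕ} {ι : Type} [Finite ι] {R : ι → D → Prop}
    (h : ∀ i, Sig k (R i)) : Sig k (fun x => ∃ i, R i x) := by
  classical
  have := Fintype.ofFinite ι
  exact (Sig.exists_finset h Finset.univ).congr fun x => by simp

theorem Sig.forall_finite {k : ℕ} {ι : Type} [Finite ι] {R : ι → D → Prop}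
    (h : ∀ i, Sig k (R i)) : Sig k (fun x => ∀ i, R i x) := by
  classical
  have := Fintype.ofFinite ι
  exact (Sig.forall_finset h Finset.univ).congr fun x => by simp

end Pool.Agent.Helper26.EC
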