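import Mathlib
import Pool.Agent.Helper26.EC.Basic
import Pool.Agent.Helper26.EC.Sig

/-! EC-5: thresholds of NP properties with advice. -/

set_option autoImplicit false

open Polynomial

namespace Pool.Agent.Helper26.EC

open D

namespace Thr

theorem thr_fst_node (a b : D) : fst (node a b) = a := rfl
theorem thr_snd_node (a b : D) : snd (node a b) = b := rfl

/-- One step of the verification. -/
def thrStep (e : D → D) (xx certs th ok o : D) : D :=
  if certs = leaf then node leaf (node th leaf) else
    if fst certs = leaf then node (snd certs) (node th ok) else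
      if fst (fst certs) = leaf then
        (if e (node (node o xx) (snd (fst certs))) = leaf then node (snd certs) (node th leaf)
          else node (snd certs) (node (snd th) ok))
      else node (snd certs) (node th leaf)

/-- The step as a function on trees `node v (node acc o)`. -/
def thrS (e : D → D) (z : D) : D :=
  thrStep e (snd (fst (fst z))) (fst (fst (snd z))) (fst (snd (fst (snd z))))
    (snd (snd (fst (snd z)))) (snd (snd z))

theorem PT_thrS {e : D → D} (he : PT e) : PT (thrS e) := by
  have hx : PT (fun z => snd (fst (fst z))) := PT.snd.comp (PT.fst.comp PT.fst)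
  have hacc : PT (fun z => fst (snd z)) := PT.fst.comp PT.snd
  have hcerts : PT (fun z => fst (fst (snd z))) := PT.fst.comp hacc
  have hth : PT (fun z => fst (snd (fst (snd z)))) := PT.fst.comp (PT.snd.comp hacc)
  have hok : PT (fun z => snd (snd (fst (snd z)))) := PT.snd.comp (PT.snd.comp hacc)
  have ho : PT (fun z => snd (snd z)) := PT.snd.comp PT.snd
  have hl : PT (fun _ => leaf) := PT.const _
  unfold thrS thrStep
  refine PT.ite hcerts (PT.pair hl (PT.pair hth hl)) ?_
  refine PT.ite (PT.fst.comp hcerts) (PT.pair (PT.snd.comp hcerts) (PT.pair hth hok)) ?_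
  refine PT.ite (PT.fst.comp (PT.fst.comp hcerts)) ?_
    (PT.pair (PT.snd.comp hcerts) (PT.pair hth hl))
  refine PT.ite (he.comp (PT.pair (PT.pair ho hx) (PT.snd.comp (PT.fst.comp hcerts))))
    (PT.pair (PT.snd.comp hcerts) (PT.pair hth hl))
    (PT.pair (PT.snd.comp hcerts) (PT.pair (PT.snd.comp hth) hok))

theorem size_pos (x : D) : 1 ≤ size x := by
  cases x <;> simp [size]

theorem size_fst_snd_le (x : D) : size (fst x) + size (snd x) ≤ size x + 1 := by
  cases x <;> simp only [size, D.fst, D.snd] <;> omega

theorem size_thrStep (e : D → D) (xx certs th ok o : D) :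
    size (thrStep e xx certs th ok o) ≤ size certs + size th + size ok + 2 := by
  have h1 := size_pos certs
  have h2 := size_pos ok
  have h3 := size_snd_le certs
  have h4 := size_snd_le th
  unfold thrStep
  split_ifs <;> simp only [size] <;> omega

/-- A good certificate. -/
def Good (e : D → D) (xx o c : D) : Prop :=
  c = leaf ∨ ∃ y, c = node leaf y ∧ e (node (node o xx) y) ≠ leaf

/-- The final state is accepting. -/
def AccF (z : D) : Prop := fst z = leaf ∧ fst (snd z) = leaf ∧ snd (snd z) ≠ leaf

theorem thr_fold (e : D → D) (xx : D) (l : List D) : ∀ certs th ok : D,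
    AccF (l.foldl (fun acc o => thrStep e xx (fst acc) (fst (snd acc)) (snd (snd acc)) o)
      (node certs (node th ok))) ↔
    ok ≠ leaf ∧ ∃ cs : List D, certs = ofL cs ∧ List.Forall₂ (Good e xx) l cs ∧
      snd^[cs.countP (fun c => decide (c ≠ leaf))] th = leaf := by
  induction l with
  | nil =>
    intro certs th ok
    simp only [List.foldl_nil, AccF, D.fst, D.snd]
    constructor
    · rintro ⟨h1, h2, h3⟩
      refine ⟨h3, [], by simp [ofL, h1], List.Forall₂.nil, by simpa using h2⟩
    · rintro ⟨h3, cs, h1, h2, h4⟩
      cases h2
      exact ⟨by simpa [ofL] using h1, by simpa using h4, h3⟩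
  | cons o l ih =>
    intro certs th ok
    rw [List.foldl_cons]
    simp only [thr_fst_node, thr_snd_node]
    by_cases hc : certs = leaf
    · subst hc
      have : thrStep e xx leaf th ok o = node leaf (node th leaf) := by simp [thrStep]
      rw [this, ih]
      constructor
      · rintro ⟨h, _⟩
        exact absurd rfl h
      · rintro ⟨_, cs, h1, h2, _⟩
        cases h2 with
        | cons h3 h4 => simp [ofL] at h1
    · obtain ⟨c, rest, rfl⟩ : ∃ c rest, certs = node c rest := by
        cases certs with
        | leaf => exact absurd rfl hc
        | node c rest => exact ⟨c, rest, rfl⟩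
      -- reformulate the right hand side
      have hR : (ok ≠ leaf ∧ ∃ cs : List D, node c rest = ofL cs ∧
          List.Forall₂ (Good e xx) (o :: l) cs ∧
          snd^[cs.countP (fun c => decide (c ≠ leaf))] th = leaf) ↔
          (ok ≠ leaf ∧ Good e xx o c ∧ ∃ cs : List D, rest = ofL cs ∧
          List.Forall₂ (Good e xx) l cs ∧
          snd^[(c :: cs).countP (fun c => decide (c ≠ leaf))] th = leaf) := by
        constructor
        · rintro ⟨h0, cs, h1, h2, h3⟩
          cases h2 with
          | cons h4 h5 =>
            simp only [ofL, node.injEq] at h1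
            obtain ⟨rfl, rfl⟩ := h1
            exact ⟨h0, h4, _, rfl, h5, h3⟩
        · rintro ⟨h0, h4, cs, h1, h5, h3⟩
          exact ⟨h0, c :: cs, by simp [ofL, h1], List.Forall₂.cons h4 h5, h3⟩
      rw [hR]
      by_cases hcl : c = leaf
      · subst hcl
        have : thrStep e xx (node leaf rest) th ok o = node rest (node th ok) := by
          simp [thrStep, thr_fst_node, thr_snd_node]
        rw [this, ih]
        simp [Good]
      · have hcount : ∀ cs : List D, (c :: cs).countP (fun c => decide (c ≠ leaf)) =
            cs.countP (fun c => decide (c ≠ leaf)) + 1 := by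
          intro cs
          rw [List.countP_cons_of_pos]
          simp [hcl]
        by_cases hf : fst c = leaf
        · obtain ⟨y, rfl⟩ : ∃ y, c = node leaf y := by
            cases c with
            | leaf => exact absurd rfl hcl
            | node a b =>
              simp only [D.fst] at hf
              subst hf
              exact ⟨b, rfl⟩
          by_cases he : e (node (node o xx) y) = leaf
          · have : thrStep e xx (node (node leaf y) rest) th ok o = node rest (node th leaf) := by
              simp [thrStep, thr_fst_node, thr_snd_node, he]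
            rw [this, ih]
            constructor
            · rintro ⟨h, _⟩
              exact absurd rfl h
            · rintro ⟨_, h, _⟩
              rcases h with h | ⟨y', h1, h2⟩
              · simp at h
              · simp only [node.injEq, true_and] at h1
                subst h1
                exact absurd he h2
          · have : thrStep e xx (node (node leaf y) rest) th ok o =
                node rest (node (snd th) ok) := by
              simp [thrStep, thr_fst_node, thr_snd_node, he]
            rw [this, ih]
            simp only [hcount, Function.iterate_succ_apply]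
            constructor
            · rintro ⟨h0, cs, h1, h2, h3⟩
              exact ⟨h0, Or.inr ⟨y, rfl, he⟩, cs, h1, h2, h3⟩
            · rintro ⟨h0, _, cs, h1, h2, h3⟩
              exact ⟨h0, cs, h1, h2, h3⟩
        · have : thrStep e xx (node c rest) th ok o = node rest (node th leaf) := by
            simp [thrStep, thr_fst_node, thr_snd_node, hcl, hf]
          rw [this, ih]
          constructor
          · rintro ⟨h, _⟩
            exact absurd rfl h
          · rintro ⟨_, h, _⟩
            rcases h with h | ⟨y', h1, h2⟩
            · exact absurd h hcl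
            · subst h1
              exact absurd rfl hf

theorem iterate_snd_leaf (k : ℕ) : snd^[k] leaf = leaf := by
  induction k with
  | zero => rfl
  | succ k ih => rw [Function.iterate_succ_apply]; exact ih

theorem iterate_snd_comb (θ k : ℕ) : snd^[k] (ofL (List.replicate θ leaf)) = leaf ↔ θ ≤ k := by
  induction k generalizing θ with
  | zero =>
    cases θ with
    | zero => simp [ofL]
    | succ θ => simp [ofL, List.replicate_succ]
  | succ k ih =>
    cases θ with
    | zero => simp [ofL, iterate_snd_leaf]
    | succ θ => simp [ofL, List.replicate_succ, D.snd, ih]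

theorem size_ofL_le (l : List D) (m : ℕ) (h : ∀ a ∈ l, size a ≤ m) :
    size (ofL l) ≤ l.length * (m + 1) + 1 := by
  induction l with
  | nil => simp [ofL, size]
  | cons a l ih =>
    have h1 := ih fun b hb => h b (List.mem_cons_of_mem _ hb)
    have h2 := h a List.mem_cons_self
    simp only [ofL, size, List.length_cons]
    nlinarith

theorem size_mem_toL {a t : D} (h : a ∈ toL t) : size a ≤ size t := by
  induction t with
  | leaf => simp [toL] at h
  | node b c _ ih =>
    simp only [toL, List.mem_cons] at h
    simp only [size]
    rcases h with rfl | h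
    · omega
    · have := ih h
      omega

/-- Acceptance by the verifier. -/
def ThrW (e : D → D) (v : D) : Prop :=
  AccF ((toL (fst (fst (fst v)))).foldl (fun acc o => thrS e (node v (node acc o)))
    (node (snd v) (node (snd (fst (fst v))) (node leaf leaf))))

theorem ThrW_iff (e : D → D) (v C : D) : ThrW e (node v C) ↔
    ∃ cs : List D, C = ofL cs ∧ List.Forall₂ (Good e (snd v)) (toL (fst (fst v))) cs ∧
      snd^[cs.countP (fun c => decide (c ≠ leaf))] (snd (fst v)) = leaf := by
  have := thr_fold e (snd v) (toL (fst (fst v))) C (snd (fst v)) (node leaf leaf)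
  simp only [ne_eq, reduceCtorEq, not_false_eq_true, true_and] at this
  exact this

theorem Forall₂_countP_le {e : D → D} {xx : D} {N : D → Prop} [DecidablePred N] {l cs : List D}
    (h : List.Forall₂ (Good e xx) l cs) (hN : ∀ o y, e (node (node o xx) y) ≠ leaf → N o) :
    cs.countP (fun c => decide (c ≠ leaf)) ≤ l.countP (fun o => decide (N o)) := by
  induction h with
  | nil => simp
  | @cons o c l cs h1 h2 ih =>
    by_cases hc : c = leaf
    · rw [List.countP_cons_of_neg (by simp [hc])]
      rw [List.countP_cons]
      omega
    · have : N o := by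
        rcases h1 with h1 | ⟨y, _, h1⟩
        · exact absurd h1 hc
        · exact hN _ _ h1
      rw [List.countP_cons_of_pos (by simp [hc]), List.countP_cons_of_pos (by simp [this])]
      omega

theorem exists_certs {e : D → D} {xx : D} {N : D → Prop} [DecidablePred N] (l : List D)
    (hN : ∀ o, N o → ∃ y, e (node (node o xx) y) ≠ leaf) :
    ∃ cs : List D, List.Forall₂ (Good e xx) l cs ∧
      cs.countP (fun c => decide (c ≠ leaf)) = l.countP (fun o => decide (N o)) := by
  induction l with
  | nil => exact ⟨[], List.Forall₂.nil, by simp⟩
  | cons o l ih =>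
    obtain ⟨cs, h1, h2⟩ := ih
    by_cases ho : N o
    · obtain ⟨y, hy⟩ := hN o ho
      refine ⟨node leaf y :: cs, List.Forall₂.cons (Or.inr ⟨y, rfl, hy⟩) h1, ?_⟩
      rw [List.countP_cons_of_pos (by simp), List.countP_cons_of_pos (by simp [ho]), h2]
    · refine ⟨leaf :: cs, List.Forall₂.cons (Or.inl rfl) h1, ?_⟩
      rw [List.countP_cons_of_neg (by simp), List.countP_cons_of_neg (by simp [ho]), h2]

theorem PDec_ThrW {e : D → D} (he : PT e) : PDec (ThrW e) := by
  have h1 : PT (fun v => (toL (fst (fst (fst v)))).foldl
      (fun acc o => thrS e (node v (node acc o)))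
      (node (snd v) (node (snd (fst (fst v))) (node leaf leaf)))) := by
    apply PT.foldl_of_add (PT_thrS he)
      (PT.pair PT.snd (PT.pair (PT.snd.comp (PT.fst.comp PT.fst)) (PT.const _)))
      (PT.fst.comp (PT.fst.comp PT.fst)) 5
    intro v acc o _
    have h2 := size_thrStep e (snd (fst (fst (node v (node acc o)))))
      (fst (fst (snd (node v (node acc o))))) (fst (snd (fst (snd (node v (node acc o))))))
      (snd (snd (fst (snd (node v (node acc o)))))) (snd (snd (node v (node acc o))))
    unfold thrS
    refine h2.trans ?_
    simp only [thr_fst_node, thr_snd_node]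
    have h3 := size_fst_snd_le acc
    have h4 := size_fst_snd_le (snd acc)
    simp
    omega
  refine ((PDec.eq_const (PT.fst.comp h1) leaf).and ((PDec.eq_const (PT.fst.comp (PT.snd.comp h1))
    leaf).and (PDec.eq_const (PT.snd.comp (PT.snd.comp h1)) leaf).not))

end Thr

open Thr Classical in
theorem NPpoly_of_threshold {R N : D → Prop} (hN : Sig 1 N) (q : ℕ[X])
    (h : ∀ n : ℕ, ∃ (l : List D) (θ : ℕ), l.length ≤ q.eval n ∧ (∀ o ∈ l, size o ≤ q.eval n) ∧
      ∀ x, size x ≤ n → (R x ↔ θ ≤ l.countP (fun o => decide (N (node o x))))) : NPpoly R := by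
  obtain ⟨V, p, hV, hbal, hNV⟩ := hN
  obtain ⟨e, he, heV⟩ : PDec V := by
    have := PDec.not (R := fun z => ¬ V z) hV
    obtain ⟨e, he, h1⟩ := this
    exact ⟨e, he, fun x => by rw [← h1 x]; simp⟩
  refine ⟨fun v => ∃ C, ThrW e (node v C), q * (q + 1) + 1 + (2 * (q + 1) + 1) + 1, ?_, ?_⟩
  · -- in NP
    refine ⟨fun z => ThrW e z, X * (p.comp (X + 2) + 3) + 1, ?_, ?_, fun x => Iff.rfl⟩
    · exact (PDec_ThrW he).not
    · intro v C hW
      obtain ⟨cs, rfl, hF, hcount⟩ := (ThrW_iff e v C).1 hW
      clear hcount
      have hlen := hF.length_eq
      have hlen2 := length_toL_le (fst (fst v))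
      have h1 := size_fst_le (fst v)
      have h2 := size_fst_snd_le v
      have h3 := size_pos (snd v)
      have hsz : ∀ c ∈ cs, size c ≤ (p.comp (X + 2)).eval (size v) + 2 := by
        intro c hc
        obtain ⟨o, ho, hg⟩ : ∃ o ∈ toL (fst (fst v)), Good e (snd v) o c := by
          clear hlen hlen2 hW
          generalize toL (fst (fst v)) = l at hF
          induction hF with
          | nil => simp at hc
          | @cons o' c' l cs' h4 h5 ih =>
            rcases List.mem_cons.1 hc with rfl | hc
            · exact ⟨o', List.mem_cons_self, h4⟩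
            · obtain ⟨o, ho, hg⟩ := ih hc
              exact ⟨o, List.mem_cons_of_mem _ ho, hg⟩
        have h4 := size_mem_toL ho
        rcases hg with rfl | ⟨y, rfl, hy⟩
        · simp only [size]; omega
        · have h5 := hbal _ _ ((heV _).2 hy)
          have h6 : p.eval (size (node o (snd v))) ≤ p.eval (size v + 2) := by
            apply eval_mono
            simp only [size]
            omega
          simp only [eval_comp, eval_add, eval_X, eval_ofNat, size]
          omega
      have h7 := size_ofL_le cs _ hsz
      refine h7.trans ?_
      simp only [eval_add, eval_mul, eval_X, eval_ofNat, eval_one]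
      have h8 : cs.length ≤ size v := by omega
      have h9 := Nat.mul_le_mul_right ((p.comp (X + 2)).eval (size v) + 2 + 1) h8
      have h10 : (p.comp (X + 2)).eval (size v) + 2 + 1 = (p.comp (X + 2)).eval (size v) + 3 := rfl
      rw [h10] at h9 ⊢
      omega
  · intro n
    obtain ⟨l, θ, hl, hlo, hx⟩ := h n
    refine ⟨node (ofL l) (ofL (List.replicate (min θ (l.length + 1)) leaf)), ?_, ?_⟩
    · have h1 := size_ofL_le l _ hlo
      have h2 := size_ofL_le (List.replicate (min θ (l.length + 1)) leaf) 1 (by
        intro a ha
        rw [List.eq_of_mem_replicate ha]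
        simp [size])
      rw [List.length_replicate] at h2
      simp only [size, eval_add, eval_mul, eval_one, eval_ofNat]
      have h3 := Nat.mul_le_mul_right (q.eval n + 1) hl
      have h4 : min θ (l.length + 1) ≤ l.length + 1 := min_le_right _ _
      omega
    · intro x hxn
      rw [hx x hxn]
      have hcl : l.countP (fun o => decide (N (node o x))) ≤ l.length := List.countP_le_length
      constructor
      · intro hθ
        obtain ⟨cs, h1, h2⟩ := exists_certs (e := e) (xx := x) (N := fun o => N (node o x)) l (by
          intro o ho
          obtain ⟨y, hy⟩ := (hNV _).1 ho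
          exact ⟨y, (heV _).1 hy⟩)
        refine ⟨ofL cs, (ThrW_iff _ _ _).2 ⟨cs, rfl, ?_, ?_⟩⟩
        · simpa only [thr_fst_node, thr_snd_node, toL_ofL] using h1
        · simp only [thr_fst_node, thr_snd_node]
          rw [iterate_snd_comb, h2]
          exact (min_le_left _ _).trans hθ
      · rintro ⟨C, hC⟩
        obtain ⟨cs, rfl, h1, h2⟩ := (ThrW_iff _ _ _).1 hC
        simp only [thr_fst_node, thr_snd_node, toL_ofL] at h1 h2
        rw [iterate_snd_comb] at h2
        have h3 := Forall₂_countP_le (N := fun o => N (node o x)) h1 (by
          intro o y hy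
          exact (hNV _).2 ⟨y, (heV _).2 hy⟩)
        have h4 := h2.trans h3
        rcases min_le_iff.1 h4 with h5 | h5
        · exact h5
        · omega

end Pool.Agent.Helper26.EC
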