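import Mathlib
import Pool.Agent.Helper26.EC.Basic

/-!
# EC-2: code of trees by words and decoding in polynomial time (helper5)
-/

set_option autoImplicit false

open Polynomial

namespace Pool.Agent.Helper26.EC

open D

namespace Words

/-- The tree of a letter. -/
def bd (b : Bool) : D := if b then node leaf leaf else leaf

theorem enc_eq (w : List Bool) : enc w = ofL (w.map bd) := by
  induction w with
  | nil => rfl
  | cons b w ih =>
    change node (bd b) (enc w) = node (bd b) (ofL (w.map bd))
    rw [ih]

theorem size_le_of_mem_toL : ∀ (r a : D), a ∈ toL r → size a ≤ size r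
  | leaf, a, h => by simp [toL] at h
  | node b c, a, h => by
    simp only [toL, List.mem_cons] at h
    rcases h with h | h
    · subst h
      simp only [size]
      omega
    · have := size_le_of_mem_toL c a h
      simp only [size]
      omega

/-- Reversal of a comb. -/
def rev (y : D) : D := (toL y).foldl (fun acc a => node a acc) leaf

theorem foldl_node (l : List D) : ∀ acc : List D,
    l.foldl (fun acc a => node a acc) (ofL acc) = ofL (l.reverse ++ acc) := by
  induction l with
  | nil => intro acc; rfl
  | cons a l ih =>
    intro acc
    have := ih (a :: acc)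
    rw [List.foldl_cons]
    change List.foldl (fun acc a => node a acc) (ofL (a :: acc)) l = _
    rw [this]
    simp

theorem rev_eq (y : D) : rev y = ofL (toL y).reverse := by
  have := foldl_node (toL y) []
  simpa [rev, ofL] using this

theorem PT_rev : PT rev := by
  have hs : PT (fun z : D => node z.snd.snd z.snd.fst) :=
    PT.pair (PT.comp PT.snd PT.snd) (PT.comp PT.fst PT.snd)
  have := PT.foldl_of_add hs (PT.const leaf) PT.id (X + 1) (by
    intro x acc a ha
    have h1 := size_le_of_mem_toL x a ha
    simp only [D.snd, D.fst, size, eval_add, eval_X, eval_one]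
    omega)
  exact this.congr fun x => rfl

/-- One step of the decoder; the input is `node x (node acc a)`. -/
def sdec (z : D) : D :=
  if z.snd.snd = leaf then node leaf z.snd.fst
  else node (node z.snd.fst.fst z.snd.fst.snd.fst) z.snd.fst.snd.snd

theorem PT_sdec : PT sdec := by
  have h1 : PT (fun z : D => z.snd.fst) := PT.comp PT.fst PT.snd
  have h2 : PT (fun z : D => z.snd.snd) := PT.comp PT.snd PT.snd
  have h3 : PT (fun z : D => z.snd.fst.snd) := PT.comp PT.snd h1
  exact PT.ite h2 (PT.pair (PT.const leaf) h1)
    (PT.pair (PT.pair (PT.comp PT.fst h1) (PT.comp PT.fst h3)) (PT.comp PT.snd h3))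

theorem size_sdec (x acc a : D) : size (sdec (node x (node acc a))) ≤ size acc + 4 := by
  unfold sdec
  simp only [D.snd, D.fst]
  split_ifs with h
  · simp only [size]
    omega
  · rcases acc with _ | ⟨a1, _ | ⟨a2, a3⟩⟩
    · simp only [size]
      omega
    · simp only [size]
      omega
    · simp only [size]
      omega

/-- The decoding function. -/
def fd (x : D) : D :=
  ((toL (rev x)).foldl (fun acc a => sdec (node x (node acc a))) leaf).fst

theorem PT_fd : PT fd := by
  have := PT.foldl_of_add PT_sdec (PT.const leaf) PT_rev (C 4) (by
    intro x acc a ha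
    have := size_sdec x acc a
    rw [eval_C]
    exact this)
  exact (PT.comp PT.fst this).congr fun x => rfl

theorem toL_rev_enc (w : List Bool) : toL (rev (enc w)) = (w.map bd).reverse := by
  rw [rev_eq, toL_ofL, enc_eq, toL_ofL]

theorem foldr_cod (x : D) : ∀ y acc : D,
    ((cod x).map bd).foldr (fun a acc => sdec (node y (node acc a))) acc = node x acc := by
  induction x with
  | leaf =>
    intro y acc
    simp [cod, bd, sdec, D.snd, D.fst]
  | node a b iha ihb =>
    intro y acc
    simp only [cod, List.map_cons, List.map_append, List.foldr_cons, List.foldr_append]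
    rw [ihb, iha]
    simp [bd, sdec, D.snd, D.fst]

theorem fd_enc_cod (x : D) : fd (enc (cod x)) = x := by
  unfold fd
  rw [toL_rev_enc, List.foldl_reverse, foldr_cod]
  rfl

/-- One step of the coder; the state is `node stack out`. -/
def scod (s : D) : D :=
  if s.fst = leaf then s
  else if s.fst.fst = leaf then node s.fst.snd (node leaf s.snd)
  else node (node s.fst.fst.fst (node s.fst.fst.snd s.fst.snd)) (node (node leaf leaf) s.snd)

theorem PT_scod : PT scod := by
  have h1 : PT (fun s : D => s.fst.fst) := PT.comp PT.fst PT.fst
  have h2 : PT (fun s : D => s.fst.snd) := PT.comp PT.snd PT.fst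
  exact PT.ite PT.fst PT.id (PT.ite h1 (PT.pair h2 (PT.pair (PT.const leaf) PT.snd))
    (PT.pair (PT.pair (PT.comp PT.fst h1) (PT.pair (PT.comp PT.snd h1) h2))
      (PT.pair (PT.const _) PT.snd)))

theorem size_scod (s : D) : size (scod s) ≤ size s + 4 := by
  rcases s with _ | ⟨_ | ⟨_ | ⟨a, b⟩, r⟩, o⟩
  · simp [scod, D.fst]
  · simp [scod, D.fst]
  · simp only [scod, D.fst, D.snd, reduceCtorEq, if_false, if_true, size]
    omega
  · simp only [scod, D.fst, D.snd, reduceCtorEq, if_false, size]
    omega

theorem size_iter_scod (k : ℕ) (s : D) : size (scod^[k] s) ≤ size s + 4 * k := by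
  induction k generalizing s with
  | zero => simp
  | succ k ih =>
    rw [Function.iterate_succ_apply]
    have h1 := ih (scod s)
    have h2 := size_scod s
    omega

theorem iter_scod (x : D) : ∀ r o : D, scod^[size x] (node (node x r) o) =
    node r (((cod x).map bd).foldl (fun acc a => node a acc) o) := by
  induction x with
  | leaf =>
    intro r o
    simp [size, scod, cod, bd, D.fst, D.snd]
  | node a b iha ihb =>
    intro r o
    have h1 : size (node a b) = (size b + size a) + 1 := by simp only [size]; omega
    rw [h1, Function.iterate_succ_apply, Function.iterate_add_apply]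
    have h2 : scod (node (node (node a b) r) o) =
        node (node a (node b r)) (node (node leaf leaf) o) := by
      simp [scod, D.fst, D.snd]
    rw [h2, iha, ihb]
    simp [cod, bd]

/-- The coding function. -/
noncomputable def fc (x : D) : D := rev (scod^[(X : ℕ[X]).eval (size x)] (node (node x leaf) leaf)).snd

theorem PT_fc : PT fc := by
  have h1 : PT (fun x : D => node (node x leaf) leaf) :=
    PT.pair (PT.pair PT.id (PT.const leaf)) (PT.const leaf)
  have h2 := PT.iter h1 PT_scod X ⟨5 * X + 4, by
    intro x k hk
    have h3 := size_iter_scod k (node (node x leaf) leaf)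
    rw [eval_X] at hk
    have h4 : (5 * X + 4 : ℕ[X]).eval (size x) = 5 * size x + 4 := by
      simp
    rw [h4]
    simp only [size] at h3
    omega⟩
  exact (PT.comp PT_rev (PT.comp PT.snd h2)).congr fun x => rfl

theorem fc_eq (x : D) : fc x = enc (cod x) := by
  unfold fc
  rw [eval_X, iter_scod, rev_eq]
  have := foldl_node ((cod x).map bd) []
  simp only [ofL, List.append_nil] at this
  simp only [D.snd]
  rw [this, toL_ofL, List.reverse_reverse, enc_eq]

end Words

open Words

theorem size_enc_le (w : List Bool) : size (enc w) ≤ 4 * w.length + 1 := by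
  induction w with
  | nil => simp [enc, size]
  | cons b w ih =>
    cases b
    · simp only [enc, size, List.length_cons, Bool.false_eq_true, if_false]
      omega
    · simp only [enc, size, List.length_cons, if_true]
      omega

theorem length_le_size_enc (w : List Bool) : w.length ≤ size (enc w) := by
  induction w with
  | nil => simp
  | cons b w ih =>
    simp only [enc, size, List.length_cons]
    omega

theorem length_cod (x : D) : (cod x).length = size x := by
  induction x with
  | leaf => rfl
  | node a b iha ihb =>
    simp only [cod, size, List.length_cons, List.length_append, iha, ihb]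

theorem exists_dec : ∃ dec : List Bool → D, (∀ x, dec (cod x) = x) ∧
    ∃ fd, PT fd ∧ ∀ w, fd (enc w) = dec w :=
  ⟨fun w => fd (enc w), fd_enc_cod, fd, PT_fd, fun _ => rfl⟩

theorem exists_PT_cod : ∃ fc, PT fc ∧ ∀ x, fc x = enc (cod x) :=
  ⟨fc, PT_fc, fc_eq⟩

theorem cod_injective : Function.Injective cod := by
  obtain ⟨dec, h, -⟩ := exists_dec
  intro x y hxy
  rw [← h x, ← h y, hxy]

theorem injOn_letters (n : ℕ) : Set.InjOn (fun (x : D) (i : Fin n) => (cod x)[(i : ℕ)]?)
    {x : D | size x ≤ n} := by
  intro x hx y hy hxy
  apply cod_injective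
  apply List.ext_getElem?
  intro i
  by_cases hi : i < n
  · exact congrFun hxy ⟨i, hi⟩
  · change size x ≤ n at hx
    change size y ≤ n at hy
    rw [List.getElem?_eq_none, List.getElem?_eq_none]
    · rw [length_cod]; omega
    · rw [length_cod]; omega

/-- There are few trees of size at most `n`. -/
theorem finite_size (n : ℕ) : {x : D | size x ≤ n}.Finite :=
  Set.Finite.of_injOn (fun _ _ => Set.mem_univ _) (injOn_letters n) Set.finite_univ

theorem ncard_size_le (n : ℕ) : {x : D | size x ≤ n}.ncard ≤ 4 ^ n := by
  refine (Set.ncard_le_ncard_of_injOn _ (fun _ _ => Set.mem_univ _) (injOn_letters n)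
    Set.finite_univ).trans ?_
  rw [Set.ncard_univ, Nat.card_eq_fintype_card, Fintype.card_fun, Fintype.card_fin,
    Fintype.card_option, Fintype.card_bool]
  exact Nat.pow_le_pow_left (by norm_num) n

end Pool.Agent.Helper26.EC
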