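import Mathlib
import Pool.Agent.Helper26.EC.Threshold
import Pool.Agent.Helper26.EC.MultWeights
import Pool.Agent.Helper26.EC.Words

/-! EC-7: from a distinguishing advantage to nonuniform certificates. -/

set_option autoImplicit false

open Polynomial

namespace Pool.Agent.Helper26.EC

open D

open Classical in
theorem countP_sum {B : Type} (l : List B) (P : B → Prop) :
    ((l.countP fun o => decide (P o) : ℕ) : ℝ) = (l.map fun o => if P o then (1 : ℝ) else 0).sum := by
  induction l with
  | nil => simp
  | cons o l ih =>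
    rw [List.countP_cons]
    by_cases h : P o
    · simp [h, ih, add_comm]
    · simp [h, ih]

open Classical in
theorem NPpoly_of_advantage {L N : D → Prop} (hN : Sig 1 N) (r : ℕ[X]) (ε : ℝ) (hε : 0 < ε)
    (h : ∀ (n : ℕ) (X : Finset D) (μ ν : D → ℝ), (∀ x, x ∈ X ↔ size x ≤ n) →
      (∀ x, 0 ≤ μ x) → (∀ x, 0 ≤ ν x) → (∀ x, μ x ≠ 0 → ¬ L x) → (∀ x, ν x ≠ 0 → L x) →
      ∑ x ∈ X, μ x = 1 → ∑ x ∈ X, ν x = 1 →
      ∃ o, size o ≤ r.eval n ∧
        ε ≤ ∑ x ∈ X, μ x * (if N (node o x) then 1 else 0) -
          ∑ x ∈ X, ν x * (if N (node o x) then 1 else 0)) :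
    NPpoly (fun x => ¬ L x) := by
  -- make ε ≤ 1
  wlog hε1 : ε ≤ 1 generalizing ε
  · exact this 1 one_pos (fun n X μ ν h1 h2 h3 h4 h5 h6 h7 => by
      obtain ⟨o, ho, ho2⟩ := h n X μ ν h1 h2 h3 h4 h5 h6 h7
      exact ⟨o, ho, by linarith [not_le.1 hε1]⟩) le_rfl
  obtain ⟨K, hK⟩ := exists_nat_gt (16 * Real.log 4 / ε ^ 2)
  apply NPpoly_of_threshold hN (C K * X + 1 + r)
  intro n
  let Z : Finset D := (finite_size n).toFinset
  have hX : ∀ x : D, x ∈ Z ↔ size x ≤ n := by
    intro x; simp [Z]
  have hXc : Z.card ≤ 4 ^ n := by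
    have := ncard_size_le n
    rwa [Set.ncard_eq_toFinset_card _ (finite_size n)] at this
  let U := Z.filter fun x => ¬ L x
  let S := Z.filter fun x => L x
  by_cases hS : S = ∅
  · refine ⟨[], 0, by simp, by simp, fun x hx => ?_⟩
    simp only [List.countP_nil, le_refl, iff_true]
    intro hL
    have : x ∈ S := by simp [S, hX, hx, hL]
    rw [hS] at this
    simp at this
  by_cases hU : U = ∅
  · refine ⟨[], 1, by simp, by simp, fun x hx => ?_⟩
    simp only [List.countP_nil, nonpos_iff_eq_zero, one_ne_zero, iff_false, not_not]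
    by_contra hL
    have : x ∈ U := by simp [U, hX, hx, hL]
    rw [hU] at this
    simp at this
  obtain ⟨s0, hs0⟩ := Finset.nonempty_iff_ne_empty.2 hS
  obtain ⟨u0, hu0⟩ := Finset.nonempty_iff_ne_empty.2 hU
  let A := {x // x ∈ U} × {x // x ∈ S}
  let B := {o : D // size o ≤ r.eval n}
  let g : A → B → ℝ := fun a b =>
    (if N (node b.1 a.1.1) then 1 else 0) - (if N (node b.1 a.2.1) then 1 else 0)
  have hg : ∀ a b, |g a b| ≤ 1 := by
    intro a b
    simp only [g]
    split_ifs <;> norm_num
  have hn1 : 1 ≤ n := by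
    have h1 := (hX u0).1 (Finset.mem_filter.1 hu0).1
    have h2 : 1 ≤ size u0 := by cases u0 <;> simp [size]
    omega
  have hadv : ∀ w : A → ℝ, (∀ a, 0 < w a) → ∃ b, ε * ∑ a, w a ≤ ∑ a, w a * g a b := by
    intro w hw
    have hW : 0 < ∑ a, w a := Finset.sum_pos (fun a _ => hw a) ⟨(⟨u0, hu0⟩, ⟨s0, hs0⟩), by simp⟩
    set W := ∑ a, w a with hWdef
    let μ : D → ℝ := fun x => if hx : x ∈ U then (∑ s, w (⟨x, hx⟩, s)) / W else 0
    let ν : D → ℝ := fun x => if hx : x ∈ S then (∑ u, w (u, ⟨x, hx⟩)) / W else 0
    have hUX : U ⊆ Z := Finset.filter_subset _ _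
    have hSX : S ⊆ Z := Finset.filter_subset _ _
    have hsumμ : ∀ F : D → ℝ, ∑ x ∈ Z, μ x * F x = (∑ a : A, w a * F a.1.1) / W := by
      intro F
      rw [← Finset.sum_subset hUX (by
        intro x _ hx; simp [μ, hx])]
      rw [← Finset.sum_coe_sort U]
      rw [Fintype.sum_prod_type, Finset.sum_div]
      apply Finset.sum_congr rfl
      intro x _
      simp only [μ, x.2, dite_true, Subtype.coe_eta]
      rw [← Finset.sum_mul]
      ring
    have hsumν : ∀ F : D → ℝ, ∑ x ∈ Z, ν x * F x = (∑ a : A, w a * F a.2.1) / W := by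
      intro F
      rw [← Finset.sum_subset hSX (by
        intro x _ hx; simp [ν, hx])]
      rw [← Finset.sum_coe_sort S]
      rw [Fintype.sum_prod_type_right, Finset.sum_div]
      apply Finset.sum_congr rfl
      intro x _
      simp only [ν, x.2, dite_true, Subtype.coe_eta]
      rw [← Finset.sum_mul]
      ring
    obtain ⟨o, ho, ho2⟩ := h n Z μ ν hX (by
        intro x; simp only [μ]; split_ifs
        · exact div_nonneg (Finset.sum_nonneg fun s _ => (hw _).le) hW.le
        · exact le_rfl) (by
        intro x; simp only [ν]; split_ifs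
        · exact div_nonneg (Finset.sum_nonneg fun s _ => (hw _).le) hW.le
        · exact le_rfl) (by
        intro x hx
        by_contra hL
        have : x ∉ U := by simp [U, hL]
        simp [μ, this] at hx) (by
        intro x hx
        by_contra hL
        have : x ∉ S := by simp [S, hL]
        simp [ν, this] at hx)
      (by
        have := hsumμ fun _ => 1
        simp only [mul_one] at this
        rw [this, ← hWdef]
        exact div_self hW.ne')
      (by
        have := hsumν fun _ => 1
        simp only [mul_one] at this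
        rw [this, ← hWdef]
        exact div_self hW.ne')
    refine ⟨⟨o, ho⟩, ?_⟩
    rw [hsumμ, hsumν, ← sub_div, le_div_iff₀ hW] at ho2
    refine ho2.trans (le_of_eq ?_)
    rw [← Finset.sum_sub_distrib]
    apply Finset.sum_congr rfl
    intro a _
    simp only [g]
    ring
  have hcardA : (Fintype.card A : ℝ) ≤ (4 : ℝ) ^ (2 * n) := by
    have h1 : Fintype.card A = U.card * S.card := by
      simp [A]
    have h2 : U.card ≤ 4 ^ n := (Finset.card_filter_le _ _).trans hXc
    have h3 : S.card ≤ 4 ^ n := (Finset.card_filter_le _ _).trans hXc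
    have h4 : Fintype.card A ≤ 4 ^ (2 * n) := by
      rw [h1, two_mul, pow_add]
      exact Nat.mul_le_mul h2 h3
    exact_mod_cast h4
  have hcardpos : (0 : ℝ) < Fintype.card A := by
    have : 0 < Fintype.card A := Fintype.card_pos_iff.2 ⟨(⟨u0, hu0⟩, ⟨s0, hs0⟩)⟩
    exact_mod_cast this
  obtain ⟨l, hl, hlpos⟩ := mult_weights g hg ε hε hε1 hadv (K * n + 1) (by
    have h1 : Real.log (Fintype.card A) ≤ 2 * n * Real.log 4 := by
      calc Real.log (Fintype.card A) ≤ Real.log ((4 : ℝ) ^ (2 * n)) :=
            Real.log_le_log hcardpos hcardA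
        _ = 2 * n * Real.log 4 := by rw [Real.log_pow]; push_cast; ring
    have h2 : 16 * Real.log 4 < K * ε ^ 2 := by
      rwa [div_lt_iff₀ (by positivity)] at hK
    have h3 : (1 : ℝ) ≤ n := by exact_mod_cast hn1
    have h4 : (0 : ℝ) < Real.log 4 := Real.log_pos (by norm_num)
    have h5 : (0 : ℝ) < ε ^ 2 := by positivity
    push_cast
    nlinarith)
  let l' : List D := l.map Subtype.val
  -- counts
  have hcount : ∀ u ∈ U, ∀ s ∈ S, (l'.countP fun o => decide (N (node o s))) <
      l'.countP fun o => decide (N (node o u)) := by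
    intro u hu s hs
    have h1 := hlpos (⟨u, hu⟩, ⟨s, hs⟩)
    have h2 : (l.map (g (⟨u, hu⟩, ⟨s, hs⟩))).sum =
        (((l'.countP fun o => decide (N (node o u)) : ℕ) : ℝ) -
          ((l'.countP fun o => decide (N (node o s)) : ℕ) : ℝ)) := by
      rw [countP_sum, countP_sum]
      simp only [l', List.map_map, g]
      clear hl hlpos h1
      induction l with
      | nil => simp
      | cons b l ih =>
        simp only [List.map_cons, List.sum_cons, Function.comp] at ih ⊢
        rw [ih]
        ring
    rw [h2, sub_pos] at h1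
    exact_mod_cast h1
  refine ⟨l', (S.sup fun s => l'.countP fun o => decide (N (node o s))) + 1, ?_, ?_, ?_⟩
  · simp [l', hl]
  · intro o ho
    simp only [l', List.mem_map] at ho
    obtain ⟨b, _, rfl⟩ := ho
    have := b.2
    simp
    omega
  · intro x hx
    constructor
    · intro hL
      have hxU : x ∈ U := by simp [U, hX, hx, hL]
      have : (S.sup fun s => l'.countP fun o => decide (N (node o s))) <
          l'.countP fun o => decide (N (node o x)) := by
        rw [Finset.sup_lt_iff]
        · intro s hs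
          exact hcount x hxU s hs
        · exact (Nat.zero_le _).trans_lt (hcount x hxU s0 hs0)
      exact this
    · intro hle hL
      have hxS : x ∈ S := by simp [S, hX, hx, hL]
      have := Finset.le_sup (f := fun s => l'.countP fun o => decide (N (node o s))) hxS
      omega

end Pool.Agent.Helper26.EC
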