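import Mathlib
import Pool.Agent.Helper26.EC.Sig

/-! EC-11: NP-homomorphisms. -/

set_option autoImplicit false

open Polynomial

namespace Pool.Agent.Helper26.EC

open D

/-- The least element of the homomorphism at a word. -/
theorem NPHom.exists_min {G K : Type} [Lattice G] [OrderTop G] [Finite G] (S : NPHom G) :
    ∃ m : List Bool → G, (∀ w a, w ∈ S.S a ↔ m w ≤ a) ∧
      ∀ (f : G → K) (i : K) (w : List Bool), w ∈ S.part f i ↔ f (m w) = i := by
  classical
  have := Fintype.ofFinite G
  let m : List Bool → G := fun w => (Finset.univ.filter fun a => w ∈ S.S a).inf id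
  have hmem : ∀ w (s : Finset G), (∀ a ∈ s, w ∈ S.S a) → w ∈ S.S (s.inf id) := by
    intro w s
    induction s using Finset.induction_on with
    | empty =>
      intro _
      rw [Finset.inf_empty, S.top]
      trivial
    | insert a s _ ih =>
      intro h
      rw [Finset.inf_insert, S.inf]
      exact ⟨h a (Finset.mem_insert_self _ _), ih fun b hb => h b (Finset.mem_insert_of_mem hb)⟩
  have hmono : ∀ a b, a ≤ b → S.S a ⊆ S.S b := by
    intro a b hab
    rw [← inf_eq_left.2 hab, S.inf]
    exact Set.inter_subset_right
  have hm : ∀ w a, w ∈ S.S a ↔ m w ≤ a := by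
    intro w a
    constructor
    · intro h
      exact Finset.inf_le (f := id) (by simp [h])
    · intro h
      refine hmono _ _ h (hmem w _ ?_)
      intro b hb
      simpa using hb
  refine ⟨m, hm, ?_⟩
  intro f i w
  simp only [NPHom.part, NPHom.T, Set.mem_iUnion, Set.mem_sdiff, exists_prop, not_exists, not_and]
  constructor
  · rintro ⟨a, ha, h1, h2⟩
    have h3 : m w ≤ a := (hm w a).1 h1
    have h4 : m w = a := by
      by_contra hne
      exact h2 (m w) (lt_of_le_of_ne h3 hne) ((hm w _).2 le_rfl)
    rw [h4, ha]
  · intro h
    refine ⟨m w, h, (hm w _).2 le_rfl, ?_⟩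
    intro b hb hw
    exact absurd ((hm w b).1 hw) (not_le_of_gt hb)

open Classical in
/-- The universal NP-homomorphism of an NP property `L`, applied to tuples. -/
theorem exists_universal {G : Type} [Lattice G] [OrderTop G] [Fintype G] {L : D → Prop}
    (hL : Sig 1 L) (get : G → D → D) (hget : ∀ b, PT (get b)) (dec : List Bool → D)
    (fd : D → D) (hfd : PT fd) (hdec : ∀ w, fd (enc w) = dec w) :
    ∃ S : NPHom G, ∀ w a, w ∈ S.S a ↔
      (Finset.univ.inf fun b => if L (get b (dec w)) then b else ⊤) ≤ a := by
  classical
  have key : ∀ (t : D) (a : G), (Finset.univ.inf fun b => if L (get b t) then b else ⊤) ≤ a ↔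
      ∃ B : Finset G, B.inf id ≤ a ∧ ∀ b, b ∈ B → L (get b t) := by
    intro t a
    constructor
    · intro h
      refine ⟨Finset.univ.filter fun b => L (get b t), ?_, ?_⟩
      · refine le_trans (Finset.le_inf ?_) h
        intro b _
        split_ifs with hb
        · exact Finset.inf_le (f := id) (by simp [hb])
        · exact le_top
      · intro b hb
        simpa using hb
    · rintro ⟨B, h1, h2⟩
      refine le_trans (Finset.le_inf ?_) h1
      intro b hb
      refine (Finset.inf_le (Finset.mem_univ b)).trans ?_
      rw [if_pos (h2 b hb)]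
      exact le_rfl
  refine ⟨{ S := fun a => {w | (Finset.univ.inf fun b => if L (get b (dec w)) then b else ⊤) ≤ a}
            mem_NP := ?_, top := ?_, inf := ?_ }, fun w a => Iff.rfl⟩
  · intro a
    refine ⟨fun x => ∃ B : Finset G, B.inf id ≤ a ∧ ∀ b : G, b ∈ B → L (get b (fd x)), ?_, ?_⟩
    · apply Sig.exists_finite
      intro B
      by_cases hB : B.inf id ≤ a
      · have h1 : Sig 1 (fun x => ∀ b : G, b ∈ B → L (get b (fd x))) := by
          apply Sig.forall_finite
          intro b
          by_cases hb : b ∈ B
          · exact Sig.congr (hL.comp ((hget b).comp hfd)) fun x => by simp [hb]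
          · exact Sig.congr (PDec.sig ⟨fun _ => node leaf leaf, PT.const _, fun x => by simp⟩ 1)
              (R := fun _ => True) (fun x => by simp [hb])
        exact Sig.congr h1 fun x => by simp [hB]
      · exact Sig.congr (PDec.sig ⟨fun _ => leaf, PT.const _, fun x => by simp⟩ 1)
          (R := fun _ => False) (fun x => by simp [hB])
    · intro w
      rw [Set.mem_ofPred_eq, key]
      simp only [hdec]
  · ext w
    simp
  · intro a b
    ext w
    simp

end Pool.Agent.Helper26.EC
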