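import Mathlib
import Pool.Agent.Helper26.EC.Hom

/-! EC-13: the embedding lemma and consequences of `FracLE`. -/

set_option autoImplicit false

open Polynomial

namespace Pool.Agent.Helper26.EC

open D

theorem NPclass_subset_of_labLE {G G' K : Type} [Lattice G] [OrderTop G] [Finite G]
    [Lattice G'] [OrderTop G'] [Finite G'] {f : G → K} {f' : G' → K} (h : LabLE f f') :
    NPclass f ⊆ NPclass f' := by
  classical
  obtain ⟨φ, hφ, hf⟩ := h
  rintro _ ⟨S, rfl⟩
  obtain ⟨m, hm, hmp⟩ := NPHom.exists_min (K := K) S
  have hmem : ∀ c w, w ∈ (⋃ a, ⋃ (_ : φ a ≤ c), S.S a) ↔ φ (m w) ≤ c := by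
    intro c w
    simp only [Set.mem_iUnion, exists_prop]
    constructor
    · rintro ⟨a, ha, hw⟩
      exact (hφ ((hm w a).1 hw)).trans ha
    · intro hc
      exact ⟨m w, hc, (hm w _).2 le_rfl⟩
  let S' : NPHom G' :=
    { S := fun c => ⋃ a, ⋃ (_ : φ a ≤ c), S.S a
      mem_NP := by
        intro c
        choose R hR hR2 using S.mem_NP
        refine ⟨fun x => ∃ a : G, (φ a ≤ c) ∧ R a x, ?_, ?_⟩
        · apply Sig.exists_finite
          intro a
          by_cases ha : φ a ≤ c
          · exact Sig.congr (hR a) fun x => by simp [ha]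
          · exact Sig.congr (PDec.sig ⟨fun _ => leaf, PT.const _, fun x => by simp⟩ 1)
              (R := fun _ => False) (fun x => by simp [ha])
        · intro w
          simp only [Set.mem_iUnion, exists_prop, hR2]
      top := by
        ext w
        rw [hmem]
        simp
      inf := by
        intro c d
        ext w
        rw [hmem, Set.mem_inter_iff, hmem, hmem, le_inf_iff] }
  refine ⟨S', ?_⟩
  obtain ⟨m', hm', hmp'⟩ := NPHom.exists_min (K := K) S'
  funext i
  ext w
  rw [hmp f i w, hmp' f' i w]
  have : m' w = φ (m w) := by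
    apply le_antisymm
    · exact (hm' w _).1 ((hmem _ _).2 le_rfl)
    · exact (hmem _ _).1 ((hm' w _).2 le_rfl)
  rw [this, hf]

/-- Supports of a fractional embedding. -/
theorem FracLE.supports {G G' K : Type} [Lattice G] [Lattice G'] [Fintype G']
    {f : G → K} {f' : G' → K} (h : FracLE f f') :
    ∃ s : G → Finset G', (∀ b, (s b).Nonempty) ∧ (∀ b, ∀ c ∈ s b, f' c = f b) ∧
      (∀ b b', b ≤ b' → ∀ c ∈ s b, ∃ c' ∈ s b', c ≤ c') ∧
      ∀ b b', b ≤ b' → ∀ c' ∈ s b', ∃ c ∈ s b, c ≤ c' := by
  classical
  obtain ⟨w, hw0, hw1, hwf, hwm⟩ := h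
  refine ⟨fun b => Finset.univ.filter fun c => w b c ≠ 0, ?_, ?_, ?_, ?_⟩
  · intro b
    by_contra hne
    rw [Finset.not_nonempty_iff_eq_empty] at hne
    have : ∑ c, w b c = 0 := Finset.sum_eq_zero fun c _ => by
      by_contra hc
      have : c ∈ Finset.univ.filter fun c => w b c ≠ 0 := by simp [hc]
      have hne' : (Finset.univ.filter fun c => w b c ≠ 0) = ∅ := hne
      rw [hne'] at this
      simp at this
    rw [hw1] at this
    exact one_ne_zero this
  · intro b c hc
    simp only [Finset.mem_filter, Finset.mem_univ, true_and] at hc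
    exact hwf b c hc
  · intro b b' hbb c hc
    simp only [Finset.mem_filter, Finset.mem_univ, true_and] at hc ⊢
    by_contra hcon
    push Not at hcon
    -- lower closure of the support of w b'
    let C : Finset G' := Finset.univ.filter fun c => ∃ c', w b' c' ≠ 0 ∧ c ≤ c'
    have hC : IsLowerSet (C : Set G') := by
      intro x y hyx hx
      simp only [C, Finset.coe_filter, Finset.mem_univ, true_and, Set.mem_ofPred_eq] at hx ⊢
      obtain ⟨c', h1, h2⟩ := hx
      exact ⟨c', h1, hyx.trans h2⟩
    have h1 := hwm b b' hbb C hC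
    have h2 : ∑ c ∈ C, w b' c = 1 := by
      rw [← hw1 b']
      apply Finset.sum_subset (Finset.subset_univ _)
      intro x _ hx
      by_contra hx0
      exact hx (by simp only [C, Finset.mem_filter, Finset.mem_univ, true_and]; exact ⟨x, hx0, le_rfl⟩)
    have hcC : c ∉ C := by
      intro hcC
      simp only [C, Finset.mem_filter, Finset.mem_univ, true_and] at hcC
      obtain ⟨c', h3, h4⟩ := hcC
      exact hcon c' h3 h4
    have h3 : ∑ x ∈ C, w b x + w b c ≤ ∑ x, w b x := by
      rw [← Finset.sum_erase_add Finset.univ _ (Finset.mem_univ c)]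
      refine add_le_add ?_ le_rfl
      apply Finset.sum_le_sum_of_subset_of_nonneg
      · intro x hx
        simp only [Finset.mem_erase, Finset.mem_univ, and_true]
        rintro rfl
        exact hcC hx
      · intro x _ _
        exact hw0 b x
    rw [hw1] at h3
    have h4 : 0 < w b c := lt_of_le_of_ne (hw0 b c) (Ne.symm hc)
    linarith
  · intro b b' hbb c' hc'
    simp only [Finset.mem_filter, Finset.mem_univ, true_and] at hc' ⊢
    by_contra hcon
    push Not at hcon
    let C : Finset G' := Finset.univ.filter fun x => ∀ c, w b c ≠ 0 → ¬ c ≤ x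
    have hC : IsLowerSet (C : Set G') := by
      intro x y hyx hx
      simp only [C, Finset.coe_filter, Finset.mem_univ, true_and, Set.mem_ofPred_eq] at hx ⊢
      intro c h1 h2
      exact hx c h1 (h2.trans hyx)
    have h1 := hwm b b' hbb C hC
    have h2 : ∑ c ∈ C, w b c = 0 := by
      apply Finset.sum_eq_zero
      intro x hx
      simp only [C, Finset.mem_filter, Finset.mem_univ, true_and] at hx
      by_contra hx0
      exact hx x hx0 le_rfl
    have hcC : c' ∈ C := by
      simp only [C, Finset.mem_filter, Finset.mem_univ, true_and]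
      exact hcon
    have h3 : w b' c' ≤ ∑ x ∈ C, w b' x := Finset.single_le_sum (f := w b') (fun x _ => hw0 b' x) hcC
    have h4 : 0 < w b' c' := lt_of_le_of_ne (hw0 b' c') (Ne.symm hc')
    linarith

theorem FracLE.labLE_of_sup {G G' K : Type} [Lattice G] [Lattice G'] [Fintype G']
    {f : G → K} {f' : G' → K} (h : FracLE f f')
    (hf' : ∀ c d, f' c = f' d → f' (c ⊔ d) = f' c) : LabLE f f' := by
  obtain ⟨s, hne, hsf, hup, hdown⟩ := h.supports
  refine ⟨fun b => (s b).sup' (hne b) id, ?_, ?_⟩
  · intro b b' hbb
    apply Finset.sup'_le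
    intro c hc
    obtain ⟨c', hc', hcc⟩ := hup b b' hbb c hc
    exact hcc.trans (Finset.le_sup' (f := id) hc')
  · intro b
    refine (Finset.sup'_induction (hne b) id (p := fun x => f' x = f b) ?_ ?_).symm
    · intro x hx y hy
      rw [hf' x y (hx.trans hy.symm), hx]
    · intro x hx
      exact hsf b x hx

theorem FracLE.labLE_of_inf {G G' K : Type} [Lattice G] [Lattice G'] [Fintype G']
    {f : G → K} {f' : G' → K} (h : FracLE f f')
    (hf' : ∀ c d, f' c = f' d → f' (c ⊓ d) = f' c) : LabLE f f' := by
  obtain ⟨s, hne, hsf, hup, hdown⟩ := h.supports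
  refine ⟨fun b => (s b).inf' (hne b) id, ?_, ?_⟩
  · intro b b' hbb
    apply Finset.le_inf'
    intro c' hc'
    obtain ⟨c, hc, hcc⟩ := hdown b b' hbb c' hc'
    exact (Finset.inf'_le (f := id) hc).trans hcc
  · intro b
    refine (Finset.inf'_induction (hne b) id (p := fun x => f' x = f b) ?_ ?_).symm
    · intro x hx y hy
      rw [hf' x y (hx.trans hy.symm), hx]
    · intro x hx
      exact hsf b x hx

theorem FracLE.labLE_of_chain {G G' K : Type} [Lattice G] [Finite G] [Lattice G'] [Fintype G']
    {f : G → K} {f' : G' → K} (h : FracLE f f') (hG : ∀ a b : G, a ≤ b ∨ b ≤ a) : LabLE f f' := by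
  classical
  obtain ⟨s, hne, hsf, hup, hdown⟩ := h.supports
  have := Fintype.ofFinite G
  -- for every upper set U of G there is a monotone selection on U
  have key : ∀ n : ℕ, ∀ U : Finset G, U.card = n → (∀ a ∈ U, ∀ b, a ≤ b → b ∈ U) →
      ∃ φ : G → G', (∀ b ∈ U, φ b ∈ s b) ∧ ∀ a ∈ U, ∀ b ∈ U, a ≤ b → φ a ≤ φ b := by
    intro n
    induction n with
    | zero =>
      intro U hU _
      rw [Finset.card_eq_zero] at hU
      subst hU
      exact ⟨fun b => (hne b).choose, by simp, by simp⟩
    | succ n ih =>
      intro U hU hUp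
      have hUne : U.Nonempty := Finset.card_pos.1 (by omega)
      obtain ⟨a, ha⟩ := U.exists_minimal hUne
      have hamin : ∀ b ∈ U, a ≤ b := by
        intro b hb
        rcases hG a b with h1 | h1
        · exact h1
        · exact ha.2 hb h1
      obtain ⟨φ, hφ1, hφ2⟩ := ih (U.erase a) (by rw [Finset.card_erase_of_mem ha.1, hU]; rfl) (by
        intro x hx y hxy
        simp only [Finset.mem_erase] at hx ⊢
        refine ⟨?_, hUp x hx.2 y hxy⟩
        rintro rfl
        exact hx.1 (le_antisymm hxy (hamin x hx.2)))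
      -- choose the value at a
      have hc : ∃ c ∈ s a, ∀ b ∈ U.erase a, c ≤ φ b := by
        by_cases hE : (U.erase a).Nonempty
        · obtain ⟨a', ha'⟩ := (U.erase a).exists_minimal hE
          have h1 : ∀ b ∈ U.erase a, a' ≤ b := by
            intro b hb
            rcases hG a' b with h1 | h1
            · exact h1
            · exact ha'.2 hb h1
          obtain ⟨c, hc, hcc⟩ := hdown a a' (hamin a' (Finset.mem_of_mem_erase ha'.1)) (φ a')
            (hφ1 a' ha'.1)
          exact ⟨c, hc, fun b hb => hcc.trans (hφ2 a' ha'.1 b hb (h1 b hb))⟩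
        · rw [Finset.not_nonempty_iff_eq_empty] at hE
          exact ⟨(hne a).choose, (hne a).choose_spec, by simp [hE]⟩
      obtain ⟨c, hc, hcc⟩ := hc
      refine ⟨Function.update φ a c, ?_, ?_⟩
      · intro b hb
        by_cases hba : b = a
        · subst hba; simpa using hc
        · rw [Function.update_of_ne hba]
          exact hφ1 b (Finset.mem_erase.2 ⟨hba, hb⟩)
      · intro x hx y hy hxy
        by_cases hxa : x = a
        · subst hxa
          by_cases hya : y = x
          · subst hya; exact le_rfl
          · rw [Function.update_self, Function.update_of_ne hya]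
            exact hcc y (Finset.mem_erase.2 ⟨hya, hy⟩)
        · have hya : y ≠ a := by
            rintro rfl
            exact hxa (le_antisymm hxy (hamin x hx))
          rw [Function.update_of_ne hxa, Function.update_of_ne hya]
          exact hφ2 x (Finset.mem_erase.2 ⟨hxa, hx⟩) y (Finset.mem_erase.2 ⟨hya, hy⟩) hxy
  obtain ⟨φ, hφ1, hφ2⟩ := key _ Finset.univ rfl (by simp)
  refine ⟨φ, fun a b hab => hφ2 a (Finset.mem_univ _) b (Finset.mem_univ _) hab, fun b => ?_⟩
  exact (hsf b _ (hφ1 b (Finset.mem_univ _))).symm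

end Pool.Agent.Helper26.EC
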