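import Mathlib
import Pool.Agent.Helper26.EC.Defs

/-! Multi-valued embeddings of labelled lattices. -/

set_option autoImplicit false

namespace Pool.Agent.Helper26.EC

/-- Multi-valued version of `LabLE`: for some `N ≥ 1` there are `N` label preserving maps
`x 0, …, x (N-1) : G → G'`, such that for `a ≤ b` in `G` the values `x j a` can be matched with
larger values `x (σ j) b` by a permutation `σ`. For `N = 1` this is `LabLE`. -/
def FoldLE {G G' K : Type} [Lattice G] [Lattice G'] (f : G → K) (f' : G' → K) : Prop :=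
  ∃ N : ℕ, 0 < N ∧ ∃ x : Fin N → G → G', (∀ j a, f' (x j a) = f a) ∧
    ∀ a b, a ≤ b → ∃ σ : Equiv.Perm (Fin N), ∀ j, x j a ≤ x (σ j) b

/-- `(G', f')` has symmetric operations of all arities: for every `N ≥ 1` there is a monotone map
`F : G'^N → G'`, invariant under permutations of the coordinates, mapping `C^N` to `C` for every
label class `C` of `f'`. -/
def HasSymmetric {G' K : Type} [Lattice G'] (f' : G' → K) : Prop :=
  ∀ N : ℕ, 0 < N → ∃ F : (Fin N → G') → G', Monotone F ∧
    (∀ (y : Fin N → G') (σ : Equiv.Perm (Fin N)), F (y ∘ σ) = F y) ∧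
    ∀ (y : Fin N → G') (i : K), (∀ j, f' (y j) = i) → f' (F y) = i

end Pool.Agent.Helper26.EC
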