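import Mathlib
import Pool.Agent.Helper26.EC.Defs2
import Pool.Agent.Helper26.EC.FoldDefs

/-! Rational points of polyhedra (Fourier-Motzkin elimination) and a rational form of `FracLE`. -/

set_option autoImplicit false

open Polynomial

namespace Pool.Agent.Helper26.EC

open D

theorem exists_between_finite {α β : Type} [Finite α] [Finite β] (L : α → ℚ) (U : β → ℚ)
    (h : ∀ a b, L a ≤ U b) : ∃ y : ℚ, (∀ a, L a ≤ y) ∧ ∀ b, y ≤ U b := by
  rcases isEmpty_or_nonempty α with hα | hα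
  · rcases isEmpty_or_nonempty β with hβ | hβ
    · exact ⟨0, fun a => isEmptyElim a, fun b => isEmptyElim b⟩
    · obtain ⟨b0, hb0⟩ := Finite.exists_min U
      exact ⟨U b0, fun a => isEmptyElim a, hb0⟩
  · obtain ⟨a0, ha0⟩ := Finite.exists_max L
    exact ⟨L a0, ha0, fun b => h a0 b⟩

theorem exists_rat_solution_fin : ∀ (k : ℕ) (m : Type) [Finite m] (A : m → Fin k → ℚ)
    (b : m → ℚ) (x : Fin k → ℝ) (_ : ∀ i, ∑ j, (A i j : ℝ) * x j ≤ (b i : ℝ)),
    ∃ y : Fin k → ℚ, ∀ i, ∑ j, A i j * y j ≤ b i := by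
  intro k
  induction k with
  | zero =>
    intro m _ A b x hx
    refine ⟨fun _ => 0, fun i => ?_⟩
    have h := hx i
    simp only [Finset.univ_eq_empty, Finset.sum_empty] at h ⊢
    exact_mod_cast h
  | succ k ih =>
    intro m _ A b x hx
    have hx' : ∀ i, (A i 0 : ℝ) * x 0 + ∑ j : Fin k, (A i j.succ : ℝ) * x j.succ ≤ (b i : ℝ) := by
      intro i
      have := hx i
      rwa [Fin.sum_univ_succ] at this
    obtain ⟨y, hy⟩ := ih ({i : m // A i 0 = 0} ⊕ {i : m // 0 < A i 0} × {i : m // A i 0 < 0})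
      (fun q => match q with
        | Sum.inl i => fun j => A i.1 j.succ
        | Sum.inr p => fun j => -A p.2.1 0 * A p.1.1 j.succ + A p.1.1 0 * A p.2.1 j.succ)
      (fun q => match q with
        | Sum.inl i => b i.1
        | Sum.inr p => -A p.2.1 0 * b p.1.1 + A p.1.1 0 * b p.2.1)
      (fun j => x j.succ) (by
        rintro (⟨i, hi⟩ | ⟨⟨i, hi⟩, ⟨i', hi'⟩⟩)
        · have h := hx' i
          simp only [hi, Rat.cast_zero, zero_mul, zero_add] at h
          exact h
        · have h1 := hx' i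
          have h2 := hx' i'
          have e : ∑ j : Fin k, ((-A i' 0 * A i j.succ + A i 0 * A i' j.succ : ℚ) : ℝ) *
              x j.succ = -(A i' 0 : ℝ) * ∑ j : Fin k, (A i j.succ : ℝ) * x j.succ +
              (A i 0 : ℝ) * ∑ j : Fin k, (A i' j.succ : ℝ) * x j.succ := by
            rw [Finset.mul_sum, Finset.mul_sum, ← Finset.sum_add_distrib]
            refine Finset.sum_congr rfl fun j _ => ?_
            push_cast
            ring
          show ∑ j : Fin k, ((-A i' 0 * A i j.succ + A i 0 * A i' j.succ : ℚ) : ℝ) *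
              x j.succ ≤ ((-A i' 0 * b i + A i 0 * b i' : ℚ) : ℝ)
          rw [e]
          push_cast
          have hi1 : (0 : ℝ) < A i 0 := by exact_mod_cast hi
          have hi2 : (0 : ℝ) < -(A i' 0 : ℝ) := by
            have : (A i' 0 : ℝ) < 0 := by exact_mod_cast hi'
            linarith
          have h3 := mul_le_mul_of_nonneg_left h1 hi2.le
          have h4 := mul_le_mul_of_nonneg_left h2 hi1.le
          nlinarith)
    have hy0 : ∀ i, A i 0 = 0 → ∑ j : Fin k, A i j.succ * y j ≤ b i := fun i hi =>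
      hy (Sum.inl ⟨i, hi⟩)
    have hy1 : ∀ i i', 0 < A i 0 → A i' 0 < 0 →
        -A i' 0 * ∑ j : Fin k, A i j.succ * y j + A i 0 * ∑ j : Fin k, A i' j.succ * y j ≤
          -A i' 0 * b i + A i 0 * b i' := by
      intro i i' hi hi'
      have h := hy (Sum.inr (⟨i, hi⟩, ⟨i', hi'⟩))
      have e : ∑ j : Fin k, (-A i' 0 * A i j.succ + A i 0 * A i' j.succ) * y j =
          -A i' 0 * ∑ j : Fin k, A i j.succ * y j +
          A i 0 * ∑ j : Fin k, A i' j.succ * y j := by
        rw [Finset.mul_sum, Finset.mul_sum, ← Finset.sum_add_distrib]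
        refine Finset.sum_congr rfl fun j _ => ?_
        ring
      rw [← e]
      exact h
    obtain ⟨y0, hL, hU⟩ := exists_between_finite
      (fun i : {i : m // A i 0 < 0} => (b i.1 - ∑ j : Fin k, A i.1 j.succ * y j) / A i.1 0)
      (fun i : {i : m // 0 < A i 0} => (b i.1 - ∑ j : Fin k, A i.1 j.succ * y j) / A i.1 0)
      (by
        rintro ⟨i', hi'⟩ ⟨i, hi⟩
        have h := hy1 i i' hi hi'
        show (b i' - ∑ j : Fin k, A i' j.succ * y j) / A i' 0 ≤
          (b i - ∑ j : Fin k, A i j.succ * y j) / A i 0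
        rw [le_div_iff₀ hi, div_mul_eq_mul_div, div_le_iff_of_neg hi']
        nlinarith)
    refine ⟨Fin.cons y0 y, fun i => ?_⟩
    rw [Fin.sum_univ_succ]
    simp only [Fin.cons_zero, Fin.cons_succ]
    rcases lt_trichotomy (A i 0) 0 with h | h | h
    · have := hL ⟨i, h⟩
      simp only at this
      rw [div_le_iff_of_neg h] at this
      linarith
    · rw [h, zero_mul, zero_add]
      exact hy0 i h
    · have := hU ⟨i, h⟩
      simp only at this
      rw [le_div_iff₀ h] at this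
      linarith

theorem exists_rat_solution {m n : Type} [Fintype m] [Fintype n] (A : m → n → ℚ) (b : m → ℚ)
    (x : n → ℝ) (hx : ∀ i, ∑ j, (A i j : ℝ) * x j ≤ (b i : ℝ)) :
    ∃ y : n → ℚ, ∀ i, ∑ j, A i j * y j ≤ b i := by
  obtain ⟨y, hy⟩ := exists_rat_solution_fin (Fintype.card n) m
    (fun i j => A i ((Fintype.equivFin n).symm j)) b
    (fun j => x ((Fintype.equivFin n).symm j)) (fun i => by
      rw [Equiv.sum_comp (Fintype.equivFin n).symm (fun j => (A i j : ℝ) * x j)]
      exact hx i)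
  refine ⟨fun j => y (Fintype.equivFin n j), fun i => ?_⟩
  have h := hy i
  rw [← Equiv.sum_comp (Fintype.equivFin n).symm]
  simpa using h

/-- All inequalities between sums of coordinates can be kept by a rational vector. -/
theorem exists_rat_sums {P : Type} [Fintype P] (w : P → ℝ) :
    ∃ y : P → ℚ, ∀ (S T : Finset P) (k : Fin 3),
      ∑ p ∈ S, w p - ∑ p ∈ T, w p ≤ ((k : ℕ) : ℝ) - 1 →
        ∑ p ∈ S, y p - ∑ p ∈ T, y p ≤ ((k : ℕ) : ℚ) - 1 := by
  classical
  obtain ⟨y, hy⟩ := exists_rat_solution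
    (m := {q : Finset P × Finset P × Fin 3 //
      ∑ p ∈ q.1, w p - ∑ p ∈ q.2.1, w p ≤ ((q.2.2 : ℕ) : ℝ) - 1})
    (fun q p => (if p ∈ q.1.1 then 1 else 0) - (if p ∈ q.1.2.1 then 1 else 0))
    (fun q => ((q.1.2.2 : ℕ) : ℚ) - 1) w (by
      rintro ⟨⟨S, T, k⟩, h⟩
      have e : ∑ p, (((if p ∈ S then 1 else 0) - (if p ∈ T then 1 else 0) : ℚ) : ℝ) * w p =
          ∑ p ∈ S, w p - ∑ p ∈ T, w p := by
        have e1 : ∀ p, (((if p ∈ S then 1 else 0) - (if p ∈ T then 1 else 0) : ℚ) : ℝ) =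
            (if p ∈ S then (1 : ℝ) else 0) - (if p ∈ T then 1 else 0) := by
          intro p
          split_ifs <;> norm_num
        simp only [e1, sub_mul, ite_mul, one_mul, zero_mul, Finset.sum_sub_distrib,
          Finset.sum_ite_mem, Finset.univ_inter]
      have e2 : ((((k : ℕ) : ℚ) - 1 : ℚ) : ℝ) = ((k : ℕ) : ℝ) - 1 := by push_cast; ring
      show ∑ p, (((if p ∈ S then 1 else 0) - (if p ∈ T then 1 else 0) : ℚ) : ℝ) * w p ≤
        ((((k : ℕ) : ℚ) - 1 : ℚ) : ℝ)
      rw [e, e2]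
      exact h)
  refine ⟨y, fun S T k h => ?_⟩
  have h1 := hy ⟨(S, T, k), h⟩
  have e : ∑ p, ((if p ∈ S then (1 : ℚ) else 0) - (if p ∈ T then 1 else 0)) * y p =
      ∑ p ∈ S, y p - ∑ p ∈ T, y p := by
    simp only [sub_mul, ite_mul, one_mul, zero_mul, Finset.sum_sub_distrib,
      Finset.sum_ite_mem, Finset.univ_inter]
  rw [← e]
  exact h1

theorem FracLE.exists_rat {G G' K : Type} [Lattice G] [Fintype G] [Lattice G'] [Fintype G']
    {f : G → K} {f' : G' → K} (h : FracLE f f') :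
    ∃ w : G → G' → ℚ, (∀ b c, 0 ≤ w b c) ∧ (∀ b, ∑ c, w b c = 1) ∧
    (∀ b c, w b c ≠ 0 → f' c = f b) ∧
    ∀ b b', b ≤ b' → ∀ C : Finset G', IsLowerSet (C : Set G') →
      ∑ c ∈ C, w b' c ≤ ∑ c ∈ C, w b c := by
  classical
  obtain ⟨w, h0, h1, h2, h3⟩ := h
  obtain ⟨y, hy⟩ := exists_rat_sums (fun p : G × G' => w p.1 p.2)
  have k0 : ∀ b c, 0 ≤ y (b, c) := by
    intro b c
    have := hy ∅ {(b, c)} 1 (by simpa using h0 b c)
    simpa using this
  have e : ∀ (b : G) (C : Finset G'), ∑ p ∈ ({b} : Finset G) ×ˢ C, w p.1 p.2 =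
      ∑ c ∈ C, w b c := by
    intro b C
    rw [Finset.sum_product, Finset.sum_singleton]
  have e' : ∀ (b : G) (C : Finset G'), ∑ p ∈ ({b} : Finset G) ×ˢ C, y p =
      ∑ c ∈ C, y (b, c) := by
    intro b C
    rw [Finset.sum_product, Finset.sum_singleton]
  refine ⟨fun b c => y (b, c), k0, ?_, ?_, ?_⟩
  · intro b
    have a1 := hy (({b} : Finset G) ×ˢ Finset.univ) ∅ 2 (by rw [e, h1]; norm_num)
    have a2 := hy ∅ (({b} : Finset G) ×ˢ Finset.univ) 0 (by rw [e, h1]; norm_num)
    rw [e'] at a1 a2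
    simp only [Finset.sum_empty, sub_zero, zero_sub] at a1 a2
    have b1 : (((2 : Fin 3) : ℕ) : ℚ) - 1 = 1 := by norm_num
    have b2 : (((0 : Fin 3) : ℕ) : ℚ) - 1 = -1 := by norm_num
    rw [b1] at a1
    rw [b2] at a2
    linarith
  · intro b c hbc
    by_contra hne
    have hw : w b c = 0 := by
      by_contra hw
      exact hne (h2 b c hw)
    have := hy {(b, c)} ∅ 1 (by simp [hw])
    simp at this
    exact hbc (le_antisymm this (k0 b c))
  · intro b b' hbb C hC
    have := hy (({b'} : Finset G) ×ˢ C) (({b} : Finset G) ×ˢ C) 1 (by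
      rw [e, e]
      have := h3 b b' hbb C hC
      simpa using this)
    rw [e', e'] at this
    simpa using this

end Pool.Agent.Helper26.EC
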