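import Mathlib
import Pool.Agent.Helper26.EC.FoldDefs
import Pool.Agent.Helper26.EC.Rational

/-!
# Matchings: from fractional embeddings to multi-valued embeddings
-/

set_option autoImplicit false

open Polynomial

namespace Pool.Agent.Helper26.EC

open D

namespace Fold

open Classical in
/-- A function on `Fin N` with prescribed numbers of values. -/
theorem exists_fun {G' : Type} [Fintype G'] (N : ℕ) (n : G' → ℕ) (hn : ∑ c, n c = N) :
    ∃ x : Fin N → G', ∀ c, (Finset.univ.filter fun j => x j = c).card = n c := by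
  have hcard : Fintype.card (Σ c : G', Fin (n c)) = N := by
    rw [Fintype.card_sigma]
    simpa using hn
  let e : (Σ c : G', Fin (n c)) ≃ Fin N := Fintype.equivFinOfCardEq hcard
  refine ⟨fun j => (e.symm j).1, fun c => ?_⟩
  rw [← Fintype.card_subtype]
  have e1 : {j : Fin N // (e.symm j).1 = c} ≃ {s : (Σ c : G', Fin (n c)) // s.1 = c} :=
    e.symm.subtypeEquiv fun j => Iff.rfl
  rw [Fintype.card_congr (e1.trans (Equiv.sigmaSubtype c))]
  exact Fintype.card_fin _

open Classical in
theorem card_filter_mem {G' : Type} [Fintype G'] {N : ℕ} {n : G' → ℕ} {x : Fin N → G'}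
    (hx : ∀ c, (Finset.univ.filter fun j => x j = c).card = n c) (S : Finset G') :
    (Finset.univ.filter fun j => x j ∈ S).card = ∑ c ∈ S, n c := by
  rw [Finset.card_eq_sum_card_fiberwise (f := x) (t := S)]
  · refine Finset.sum_congr rfl fun c hc => ?_
    rw [← hx c]
    congr 1
    ext j
    simp only [Finset.mem_filter, Finset.mem_univ, true_and]
    constructor
    · exact fun h => h.2
    · exact fun h => ⟨h ▸ hc, h⟩
  · intro j hj
    simpa using hj

/-- A common denominator. -/
theorem exists_den {α : Type} [Fintype α] (w : α → ℚ) (hw : ∀ a, 0 ≤ w a) :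
    ∃ N : ℕ, 0 < N ∧ ∃ n : α → ℕ, ∀ a, (n a : ℚ) = w a * N := by
  refine ⟨∏ a, (w a).den, Finset.prod_pos fun a _ => (w a).den_pos, ?_⟩
  have : ∀ a, ∃ k : ℕ, (k : ℚ) = w a * ((∏ a, (w a).den : ℕ) : ℚ) := by
    intro a
    obtain ⟨k, hk⟩ := Finset.dvd_prod_of_mem (fun a => (w a).den) (Finset.mem_univ a)
    refine ⟨(w a).num.toNat * k, ?_⟩
    rw [hk]
    push_cast
    have h1 : (((w a).num.toNat : ℤ) : ℚ) = ((w a).num : ℚ) := by
      rw [Int.toNat_of_nonneg (Rat.num_nonneg.2 (hw a))]
    rw [Int.cast_natCast] at h1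
    rw [h1, ← mul_assoc]
    congr 1
    exact (Rat.mul_den_eq_num (w a)).symm
  exact ⟨fun a => (this a).choose, fun a => (this a).choose_spec⟩

open Classical in
theorem foldLE_of_rat {G G' K : Type} [Lattice G] [Fintype G] [Lattice G'] [Fintype G']
    {f : G → K} {f' : G' → K} (w : G → G' → ℚ) (h0 : ∀ b c, 0 ≤ w b c)
    (h1 : ∀ b, ∑ c, w b c = 1) (h2 : ∀ b c, w b c ≠ 0 → f' c = f b)
    (h3 : ∀ b b', b ≤ b' → ∀ C : Finset G', IsLowerSet (C : Set G') →
      ∑ c ∈ C, w b' c ≤ ∑ c ∈ C, w b c) : FoldLE f f' := by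
  obtain ⟨N, hN, n, hn⟩ := exists_den (fun p : G × G' => w p.1 p.2) fun p => h0 _ _
  have hN' : (0 : ℚ) < N := by exact_mod_cast hN
  have hsum : ∀ (b : G) (S : Finset G'), ((∑ c ∈ S, n (b, c) : ℕ) : ℚ) =
      (∑ c ∈ S, w b c) * N := by
    intro b S
    push_cast
    rw [Finset.sum_mul]
    exact Finset.sum_congr rfl fun c _ => hn (b, c)
  have htot : ∀ b, ∑ c, n (b, c) = N := by
    intro b
    have := hsum b Finset.univ
    rw [h1, one_mul] at this
    exact_mod_cast this
  choose x hx using fun b : G => exists_fun N (fun c => n (b, c)) (htot b)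
  refine ⟨N, hN, fun j b => x b j, ?_, ?_⟩
  · intro j a
    refine h2 a _ ?_
    intro h
    have h4 := hx a (x a j)
    have h5 := hn (a, x a j)
    simp only [h, zero_mul] at h5
    have h6 : n (a, x a j) = 0 := by exact_mod_cast h5
    rw [h6, Finset.card_eq_zero] at h4
    have : j ∈ (Finset.univ.filter fun i => x a i = x a j) := by simp
    rw [h4] at this
    simp at this
  · intro a b hab
    have hall : ∀ A : Finset (Fin N), A.card ≤
        (A.biUnion fun j => Finset.univ.filter fun j' => x a j ≤ x b j').card := by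
      intro A
      let U : Finset G' := Finset.univ.filter fun c => ∃ j ∈ A, x a j ≤ c
      have hU1 : A ⊆ Finset.univ.filter fun j => x a j ∈ U := by
        intro j hj
        simp only [U, Finset.mem_filter, Finset.mem_univ, true_and]
        exact ⟨j, hj, le_rfl⟩
      have hU2 : (A.biUnion fun j => Finset.univ.filter fun j' => x a j ≤ x b j') =
          Finset.univ.filter fun j' => x b j' ∈ U := by
        ext j'
        simp only [U, Finset.mem_biUnion, Finset.mem_filter, Finset.mem_univ, true_and]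
      rw [hU2, card_filter_mem (hx b)]
      refine (Finset.card_le_card hU1).trans ?_
      rw [card_filter_mem (hx a)]
      have h4 : ∑ c ∈ Uᶜ, w b c ≤ ∑ c ∈ Uᶜ, w a c := by
        refine h3 a b hab _ ?_
        intro c d hdc hc
        simp only [U, Finset.coe_compl, Set.mem_compl_iff, Finset.mem_coe, Finset.mem_filter,
          Finset.mem_univ, true_and] at hc ⊢
        rintro ⟨j, hj, hjd⟩
        exact hc ⟨j, hj, hjd.trans hdc⟩
      have h5 := Finset.sum_add_sum_compl U (w a)
      have h6 := Finset.sum_add_sum_compl U (w b)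
      rw [h1] at h5 h6
      have h7 : ∑ c ∈ U, w a c ≤ ∑ c ∈ U, w b c := by linarith
      have h8 : ((∑ c ∈ U, n (a, c) : ℕ) : ℚ) ≤ ((∑ c ∈ U, n (b, c) : ℕ) : ℚ) := by
        rw [hsum, hsum]
        exact mul_le_mul_of_nonneg_right h7 hN'.le
      exact_mod_cast h8
    obtain ⟨g, hg, hg2⟩ := (Finset.all_card_le_biUnion_card_iff_exists_injective _).1 hall
    refine ⟨Equiv.ofBijective g (Finite.injective_iff_bijective.1 hg), fun j => ?_⟩
    have := hg2 j
    simpa using this

end Fold

theorem FracLE.foldLE {G G' K : Type} [Lattice G] [Fintype G] [Lattice G'] [Fintype G']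
    {f : G → K} {f' : G' → K} (h : FracLE f f') : FoldLE f f' := by
  obtain ⟨w, h0, h1, h2, h3⟩ := h.exists_rat
  exact Fold.foldLE_of_rat w h0 h1 h2 h3

theorem FoldLE.labLE_of_symmetric {G G' K : Type} [Lattice G] [Lattice G']
    {f : G → K} {f' : G' → K} (h : FoldLE f f') (hs : HasSymmetric f') : LabLE f f' := by
  obtain ⟨N, hN, x, hx1, hx2⟩ := h
  obtain ⟨F, hF1, hF2, hF3⟩ := hs N hN
  refine ⟨fun b => F fun j => x j b, ?_, ?_⟩
  · intro a b hab
    obtain ⟨σ, hσ⟩ := hx2 a b hab
    have h1 : F (fun j => x j a) ≤ F ((fun j => x j b) ∘ σ) := hF1 fun j => hσ j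
    rw [hF2] at h1
    exact h1
  · intro a
    exact (hF3 _ _ fun j => hx1 j a).symm

theorem HasSymmetric.of_sup {G' K : Type} [Lattice G'] {f' : G' → K}
    (hf' : ∀ c d, f' c = f' d → f' (c ⊔ d) = f' c) : HasSymmetric f' := by
  intro N hN
  have hne : (Finset.univ : Finset (Fin N)).Nonempty := ⟨⟨0, hN⟩, Finset.mem_univ _⟩
  refine ⟨fun y => Finset.univ.sup' hne y, ?_, ?_, ?_⟩
  · intro y z hyz
    exact Finset.sup'_mono_fun fun j _ => hyz j
  · intro y σ
    apply le_antisymm
    · exact Finset.sup'_le _ _ fun j _ => Finset.le_sup' y (Finset.mem_univ (σ j))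
    · refine Finset.sup'_le _ _ fun j _ => ?_
      have := Finset.le_sup' (y ∘ σ) (Finset.mem_univ (σ.symm j))
      simpa [Function.comp_def] using this
  · intro y i hy
    refine Finset.sup'_induction hne y (p := fun c => f' c = i) ?_ fun j _ => hy j
    intro c hc d hd
    rw [hf' c d (hc.trans hd.symm), hc]

theorem HasSymmetric.of_inf {G' K : Type} [Lattice G'] {f' : G' → K}
    (hf' : ∀ c d, f' c = f' d → f' (c ⊓ d) = f' c) : HasSymmetric f' := by
  intro N hN
  have hne : (Finset.univ : Finset (Fin N)).Nonempty := ⟨⟨0, hN⟩, Finset.mem_univ _⟩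
  refine ⟨fun y => Finset.univ.inf' hne y, ?_, ?_, ?_⟩
  · intro y z hyz
    exact Finset.inf'_mono_fun fun j _ => hyz j
  · intro y σ
    apply le_antisymm
    · refine Finset.le_inf' _ _ fun j _ => ?_
      have := Finset.inf'_le (y ∘ σ) (Finset.mem_univ (σ.symm j))
      simpa [Function.comp_def] using this
    · exact Finset.le_inf' _ _ fun j _ => Finset.inf'_le y (Finset.mem_univ (σ j))
  · intro y i hy
    refine Finset.inf'_induction hne y (p := fun c => f' c = i) ?_ fun j _ => hy j
    intro c hc d hd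
    rw [hf' c d (hc.trans hd.symm), hc]

end Pool.Agent.Helper26.EC
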