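import Mathlib
import Pool.Agent.Helper26.EC.Defs2

/-!
Project EC, module EC-8 (written by helper46): compactness.
-/

set_option autoImplicit false

open Polynomial

namespace Pool.Agent.Helper26.EC

open D

theorem exists_gap {G G' K : Type} [Lattice G] [Fintype G] [Lattice G'] [Fintype G']
    (f : G → K) (f' : G' → K) (h : ¬ FracLE f f') :
    ∃ ε > (0 : ℝ), ∀ w : G → G' → ℝ, (∀ b c, 0 ≤ w b c) → (∀ b, ∑ c, w b c = 1) →
      (∀ b c, w b c ≠ 0 → f' c = f b) →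
      ∃ b b', b ≤ b' ∧ ∃ C : Finset G', IsLowerSet (C : Set G') ∧
        ε ≤ ∑ c ∈ C, w b' c - ∑ c ∈ C, w b c := by
  classical
  rcases isEmpty_or_nonempty G with hG | ⟨⟨b0⟩⟩
  · exact absurd ⟨fun b => hG.elim b, fun b => hG.elim b, fun b => hG.elim b,
      fun b => hG.elim b, fun b => hG.elim b⟩ h
  set S : Set (G → G' → ℝ) := {w | (∀ b, w b ∈ stdSimplex ℝ G') ∧
    ∀ b c, f' c ≠ f b → w b c = 0} with hS
  have hcl : IsClosed {w : G → G' → ℝ | ∀ b c, f' c ≠ f b → w b c = 0} := by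
    simp only [Set.setOf_forall]
    refine isClosed_iInter fun b => isClosed_iInter fun c => isClosed_iInter fun _ => ?_
    exact isClosed_eq (by fun_prop) continuous_const
  have hcomp : IsCompact S := by
    have h1 : IsCompact (Set.pi Set.univ fun _ : G => stdSimplex ℝ G') :=
      isCompact_univ_pi fun _ => isCompact_stdSimplex ℝ G'
    have h2 := h1.inter_right hcl
    convert h2 using 1
    ext w
    simp [hS, Set.mem_pi]
  let ι := {p : G × G × Finset G' // p.1 ≤ p.2.1 ∧ IsLowerSet (p.2.2 : Set G')}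
  have hι : Nonempty ι := ⟨⟨(b0, b0, ∅), le_rfl, by
    intro a b _ ha
    simp at ha⟩⟩
  let g : (G → G' → ℝ) → ℝ := fun w =>
    (Finset.univ : Finset ι).sup' Finset.univ_nonempty
      (fun p => ∑ c ∈ p.1.2.2, w p.1.2.1 c - ∑ c ∈ p.1.2.2, w p.1.1 c)
  have hg : Continuous g := by
    refine Continuous.finset_sup'_apply _ fun p _ => ?_
    fun_prop
  have hmem : ∀ w : G → G' → ℝ, (∀ b c, 0 ≤ w b c) → (∀ b, ∑ c, w b c = 1) →
      (∀ b c, w b c ≠ 0 → f' c = f b) → w ∈ S := by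
    intro w h1 h2 h3
    refine ⟨fun b => ⟨fun c => h1 b c, h2 b⟩, fun b c hne => ?_⟩
    by_contra hw
    exact hne (h3 b c hw)
  rcases S.eq_empty_or_nonempty with hE | hne
  · refine ⟨1, one_pos, fun w h1 h2 h3 => ?_⟩
    have := hmem w h1 h2 h3
    rw [hE] at this
    exact absurd this (Set.notMem_empty w)
  obtain ⟨w0, hw0, hmin⟩ := hcomp.exists_isMinOn hne hg.continuousOn
  have hpos : 0 < g w0 := by
    by_contra hle
    refine h ⟨w0, fun b c => (hw0.1 b).1 c, fun b => (hw0.1 b).2, fun b c hbc => ?_, ?_⟩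
    · by_contra hne'
      exact hbc (hw0.2 b c hne')
    · intro b b' hbb C hC
      have h1 : ∑ c ∈ C, w0 b' c - ∑ c ∈ C, w0 b c ≤ g w0 :=
        Finset.le_sup' (fun p : ι => ∑ c ∈ p.1.2.2, w0 p.1.2.1 c - ∑ c ∈ p.1.2.2, w0 p.1.1 c)
          (Finset.mem_univ (⟨(b, b', C), hbb, hC⟩ : ι))
      linarith [not_lt.1 hle]
  refine ⟨g w0, hpos, fun w h1 h2 h3 => ?_⟩
  have hw := hmem w h1 h2 h3
  have hle : g w0 ≤ g w := hmin hw
  obtain ⟨p, _, hp⟩ := Finset.exists_mem_eq_sup' (Finset.univ_nonempty (α := ι))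
    (fun p : ι => ∑ c ∈ p.1.2.2, w p.1.2.1 c - ∑ c ∈ p.1.2.2, w p.1.1 c)
  refine ⟨p.1.1, p.1.2.1, p.2.1, p.1.2.2, p.2.2, ?_⟩
  rw [← hp]
  exact hle

end Pool.Agent.Helper26.EC
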