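import Mathlib
import Pool.Agent.Helper26.EC.Defs2

/-! Product laws and the change of coordinates one at a time (project EC, section EC-9). -/

set_option autoImplicit false

namespace Pool.Agent.Helper26.EC

open D

theorem law_nonneg {I X J : Type} [Fintype I] [DecidableEq I] [Fintype X] [DecidableEq J]
    (μ ν : X → ℝ) (hμ : ∀ x, 0 ≤ μ x) (hν : ∀ x, 0 ≤ ν x) (h : (I → X) → J) (T : Finset I)
    (j : J) : 0 ≤ law μ ν h T j := by
  unfold law
  refine Finset.sum_nonneg fun z _ => ?_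
  split_ifs
  · refine Finset.prod_nonneg fun i _ => ?_
    split_ifs
    · exact hν _
    · exact hμ _
  · exact le_rfl

theorem exists_of_law_ne_zero {I X J : Type} [Fintype I] [DecidableEq I] [Fintype X]
    [DecidableEq J] (μ ν : X → ℝ) (h : (I → X) → J) (T : Finset I) (j : J)
    (hj : law μ ν h T j ≠ 0) :
    ∃ z, h z = j ∧ (∀ i ∈ T, ν (z i) ≠ 0) ∧ ∀ i ∉ T, μ (z i) ≠ 0 := by
  unfold law at hj
  obtain ⟨z, -, hz⟩ := Finset.exists_ne_zero_of_sum_ne_zero hj
  by_cases hzj : h z = j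
  · rw [if_pos hzj] at hz
    have hz' := Finset.prod_ne_zero_iff.1 hz
    refine ⟨z, hzj, fun i hi => ?_, fun i hi => ?_⟩
    · have := hz' i (Finset.mem_univ i)
      rwa [if_pos hi] at this
    · have := hz' i (Finset.mem_univ i)
      rwa [if_neg hi] at this
  · exact absurd (if_neg hzj) hz

/-- The weights of the coordinates. -/
noncomputable def wgt {I X : Type} [DecidableEq I] (μ ν : X → ℝ) (T : Finset I) (i : I)
    (x : X) : ℝ := if i ∈ T then ν x else μ x

theorem sum_wgt_prod {I X : Type} [Fintype I] [DecidableEq I] [Fintype X]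
    (μ ν : X → ℝ) (hμ : ∑ x, μ x = 1) (hν : ∑ x, ν x = 1) (T : Finset I) :
    ∑ z : I → X, ∏ i, wgt μ ν T i (z i) = 1 := by
  have h1 := Finset.prod_univ_sum (fun _ : I => (Finset.univ : Finset X)) (wgt μ ν T)
  rw [Fintype.piFinset_univ] at h1
  rw [← h1]
  refine Finset.prod_eq_one fun i _ => ?_
  unfold wgt
  split_ifs
  · exact hν
  · exact hμ

theorem law_sum {I X J : Type} [Fintype I] [DecidableEq I] [Fintype X] [Fintype J]
    [DecidableEq J] (μ ν : X → ℝ) (hμ : ∑ x, μ x = 1) (hν : ∑ x, ν x = 1) (h : (I → X) → J)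
    (T : Finset I) : ∑ j, law μ ν h T j = 1 := by
  unfold law
  rw [Finset.sum_comm, ← sum_wgt_prod (I := I) μ ν hμ hν T]
  refine Finset.sum_congr rfl fun z _ => ?_
  rw [Finset.sum_ite_eq Finset.univ (h z), if_pos (Finset.mem_univ _)]
  rfl

/-- The mass of a set of labels. -/
theorem sum_law {I X J : Type} [Fintype I] [DecidableEq I] [Fintype X] [DecidableEq J]
    (μ ν : X → ℝ) (h : (I → X) → J) (C : Finset J) (T : Finset I) :
    ∑ j ∈ C, law μ ν h T j =
      ∑ z : I → X, (∏ i, wgt μ ν T i (z i)) * (if h z ∈ C then 1 else 0) := by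
  unfold law
  rw [Finset.sum_comm]
  refine Finset.sum_congr rfl fun z _ => ?_
  rw [Finset.sum_ite_eq C (h z)]
  split_ifs
  · rw [mul_one]; rfl
  · rw [mul_zero]

theorem key {I X : Type} [Fintype I] [DecidableEq I] [Fintype X] (ρ ρ' : I → X → ℝ) (i : I)
    (hag : ∀ c, c ≠ i → ρ c = ρ' c) (h1 : ∑ x, ρ' i x = 1) (F : (I → X) → ℝ) :
    ∑ z : I → X, (∏ c, ρ c (z c)) * F z =
      ∑ z : I → X, (∏ c, ρ' c (z c)) * ∑ x, ρ i x * F (Function.update z i x) := by
  have hL : ∑ z : I → X, (∏ c, ρ c (z c)) * F z =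
      ∑ p : (I → X) × X, ρ' i p.2 * ((∏ c, ρ c (p.1 c)) * F p.1) := by
    rw [Fintype.sum_prod_type]
    refine Finset.sum_congr rfl fun z _ => ?_
    show (∏ c, ρ c (z c)) * F z = ∑ y, ρ' i y * ((∏ c, ρ c (z c)) * F z)
    rw [← Finset.sum_mul, h1, one_mul]
  have hR : ∑ z : I → X, (∏ c, ρ' c (z c)) * ∑ x, ρ i x * F (Function.update z i x) =
      ∑ p : (I → X) × X, (∏ c, ρ' c (p.1 c)) * (ρ i p.2 * F (Function.update p.1 i p.2)) := by
    rw [Fintype.sum_prod_type]
    refine Finset.sum_congr rfl fun z _ => ?_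
    rw [Finset.mul_sum]
  rw [hL, hR]
  have hinv : Function.Involutive
      (fun p : (I → X) × X => ((Function.update p.1 i p.2, p.1 i) : (I → X) × X)) := by
    intro p
    simp
  refine Fintype.sum_equiv hinv.toPerm _ _ fun p => ?_
  rw [Function.Involutive.coe_toPerm]
  simp only [Function.update_idem, Function.update_eq_self]
  rw [← Finset.mul_prod_erase Finset.univ (fun c => ρ c (p.1 c)) (Finset.mem_univ i),
    ← Finset.mul_prod_erase Finset.univ (fun c => ρ' c (Function.update p.1 i p.2 c))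
      (Finset.mem_univ i)]
  have h2 : ∏ c ∈ Finset.univ.erase i, ρ' c (Function.update p.1 i p.2 c) =
      ∏ c ∈ Finset.univ.erase i, ρ c (p.1 c) := by
    refine Finset.prod_congr rfl fun c hc => ?_
    have hc' := Finset.ne_of_mem_erase hc
    rw [Function.update_of_ne hc', hag c hc']
  rw [h2, Function.update_self]
  ring

theorem law_step {I X J : Type} [Fintype I] [DecidableEq I] [Fintype X] [DecidableEq J]
    (μ ν : X → ℝ) (hμ : ∀ x, 0 ≤ μ x) (hν : ∀ x, 0 ≤ ν x) (hμ1 : ∑ x, μ x = 1)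
    (hν1 : ∑ x, ν x = 1) (h : (I → X) → J) (C : Finset J) (δ : ℝ)
    (hC : ∀ (z : I → X) (i : I),
      ∑ x, μ x * (if h (Function.update z i x) ∈ C then 1 else 0) -
        ∑ x, ν x * (if h (Function.update z i x) ∈ C then 1 else 0) ≤ δ)
    (T : Finset I) (i : I) (hi : i ∉ T) :
    ∑ j ∈ C, law μ ν h T j - ∑ j ∈ C, law μ ν h (insert i T) j ≤ δ := by
  rw [sum_law, sum_law]
  have hw : wgt μ ν T i = μ := by
    funext x
    exact if_neg hi
  have hw' : wgt μ ν (insert i T) i = ν := by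
    funext x
    exact if_pos (Finset.mem_insert_self i T)
  have h1 : ∑ x, wgt μ ν T i x = 1 := by rw [hw]; exact hμ1
  have hag : ∀ c, c ≠ i → wgt μ ν (insert i T) c = wgt μ ν T c := by
    intro c hc
    funext x
    unfold wgt
    simp [hc]
  rw [key (wgt μ ν T) (wgt μ ν T) i (fun _ _ => rfl) h1,
    key (wgt μ ν (insert i T)) (wgt μ ν T) i hag h1, ← Finset.sum_sub_distrib, hw, hw']
  calc ∑ z : I → X, ((∏ c, wgt μ ν T c (z c)) *
          ∑ x, μ x * (if h (Function.update z i x) ∈ C then 1 else 0) -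
        (∏ c, wgt μ ν T c (z c)) *
          ∑ x, ν x * (if h (Function.update z i x) ∈ C then 1 else 0))
      ≤ ∑ z : I → X, (∏ c, wgt μ ν T c (z c)) * δ := by
        refine Finset.sum_le_sum fun z _ => ?_
        rw [← mul_sub]
        refine mul_le_mul_of_nonneg_left (hC z i) (Finset.prod_nonneg fun c _ => ?_)
        unfold wgt
        split_ifs
        · exact hν _
        · exact hμ _
    _ = δ := by rw [← Finset.sum_mul, sum_wgt_prod μ ν hμ1 hν1 T, one_mul]

/-- Changing the coordinates one at a time. -/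
theorem law_hybrid {I X J : Type} [Fintype I] [DecidableEq I] [Fintype X] [DecidableEq J]
    (μ ν : X → ℝ) (hμ : ∀ x, 0 ≤ μ x) (hν : ∀ x, 0 ≤ ν x) (hμ1 : ∑ x, μ x = 1)
    (hν1 : ∑ x, ν x = 1) (h : (I → X) → J) (C : Finset J) (δ : ℝ) (hδ : 0 ≤ δ)
    (hC : ∀ (z : I → X) (i : I),
      ∑ x, μ x * (if h (Function.update z i x) ∈ C then 1 else 0) -
        ∑ x, ν x * (if h (Function.update z i x) ∈ C then 1 else 0) ≤ δ)
    (T T' : Finset I) (hT : T ⊆ T') :
    ∑ j ∈ C, law μ ν h T j - ∑ j ∈ C, law μ ν h T' j ≤ Fintype.card I * δ := by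
  have key2 : ∀ S : Finset I, Disjoint S T →
      ∑ j ∈ C, law μ ν h T j - ∑ j ∈ C, law μ ν h (S ∪ T) j ≤ S.card * δ := by
    intro S
    induction S using Finset.induction_on with
    | empty => intro _; simp
    | insert a S ha ih =>
      intro hd
      rw [Finset.disjoint_insert_left] at hd
      have h1 := ih hd.2
      have h2 : a ∉ S ∪ T := by
        rw [Finset.mem_union]
        rintro (h | h)
        · exact ha h
        · exact hd.1 h
      have h3 := law_step μ ν hμ hν hμ1 hν1 h C δ hC (S ∪ T) a h2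
      rw [Finset.insert_union, Finset.card_insert_of_notMem ha]
      push_cast
      linarith
  have h4 := key2 (T' \ T) Finset.sdiff_disjoint
  rw [Finset.sdiff_union_of_subset hT] at h4
  refine h4.trans (mul_le_mul_of_nonneg_right ?_ hδ)
  exact_mod_cast Finset.card_le_univ _

end Pool.Agent.Helper26.EC
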