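import Mathlib
import Pool.Agent.Helper26.EC.Defs2

/-!
# EC-10: tuples as trees (helper83)
-/

set_option autoImplicit false

open Polynomial

namespace Pool.Agent.Helper26.EC

open D

namespace Tuples

/-- the `i`-th entry of a right comb -/
def gt : ℕ → D → D
  | 0, x => fst x
  | i + 1, x => gt i (snd x)

/-- replace the `i`-th entry of the right comb `t` in `node t u` by `u` -/
def up : ℕ → D → D
  | 0, y => node (snd y) (snd (fst y))
  | i + 1, y => node (fst (fst y)) (up i (node (snd (fst y)) (snd y)))

theorem PT_gt (i : ℕ) : PT (gt i) := by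
  induction i with
  | zero => exact PT.fst
  | succ i ih => exact PT.comp (f := gt i) (g := D.snd) ih PT.snd

theorem PT_up (i : ℕ) : PT (up i) := by
  induction i with
  | zero =>
    exact PT.pair (f := D.snd) (g := fun y => D.snd (D.fst y)) PT.snd
      (PT.comp (f := D.snd) (g := D.fst) PT.snd PT.fst)
  | succ i ih =>
    exact PT.pair (f := fun y => D.fst (D.fst y))
      (g := fun y => up i (node (D.snd (D.fst y)) (D.snd y)))
      (PT.comp (f := D.fst) (g := D.fst) PT.fst PT.fst)
      (PT.comp (f := up i) (g := fun y => node (D.snd (D.fst y)) (D.snd y)) ih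
        (PT.pair (f := fun y => D.snd (D.fst y)) (g := D.snd)
          (PT.comp (f := D.snd) (g := D.fst) PT.snd PT.fst) PT.snd))

theorem gt_ofL : ∀ (i : ℕ) (l : List D) (h : i < l.length), gt i (ofL l) = l[i]
  | 0, [], h => absurd h (by simp)
  | 0, a :: l, _ => rfl
  | i + 1, [], h => absurd h (by simp)
  | i + 1, a :: l, h => gt_ofL i l (by simpa using h)

theorem up_ofL : ∀ (i : ℕ) (l : List D) (u : D), i < l.length →
    up i (node (ofL l) u) = ofL (l.set i u)
  | 0, [], _, h => absurd h (by simp)
  | 0, a :: l, u, _ => rfl
  | i + 1, [], _, h => absurd h (by simp)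
  | i + 1, a :: l, u, h => by
    have := up_ofL i l u (by simpa using h)
    change node a (up i (node (ofL l) u)) = _
    rw [this]
    rfl

theorem size_ofL (n : ℕ) : ∀ l : List D, (∀ a ∈ l, size a ≤ n) →
    size (ofL l) ≤ (n + 1) * l.length + 1
  | [], _ => by simp [ofL, size]
  | a :: l, h => by
    have h1 := size_ofL n l (fun b hb => h b (List.mem_cons_of_mem _ hb))
    have h2 := h a List.mem_cons_self
    have h3 : (n + 1) * (a :: l).length = (n + 1) * l.length + (n + 1) := by
      rw [List.length_cons]; ring
    rw [h3]
    change size a + size (ofL l) + 1 ≤ _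
    omega

end Tuples

open Tuples in
theorem exists_tuples (G : Type) [Fintype G] [DecidableEq G] :
    ∃ (tup : (G → D) → D) (get upd : G → D → D), (∀ b, PT (get b)) ∧ (∀ b, PT (upd b)) ∧
      (∀ z b, get b (tup z) = z b) ∧
      (∀ z b u, upd b (node (tup z) u) = tup (Function.update z b u)) ∧
      ∀ z n, (∀ b, size (z b) ≤ n) → size (tup z) ≤ (n + 1) * Fintype.card G + 1 := by
  let e : G ≃ Fin (Fintype.card G) := Fintype.equivFin G
  refine ⟨fun z => ofL (List.ofFn fun i => z (e.symm i)), fun b => gt (e b), fun b => up (e b),
    fun b => PT_gt _, fun b => PT_up _, ?_, ?_, ?_⟩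
  · intro z b
    dsimp only
    rw [gt_ofL _ _ (by simp)]
    simp
  · intro z b u
    dsimp only
    rw [up_ofL _ _ _ (by simp)]
    congr 1
    apply List.ext_getElem
    · simp
    · intro i h1 h2
      rw [List.getElem_set]
      simp only [List.getElem_ofFn]
      split_ifs with h
      · subst h
        simp
      · rw [Function.update_of_ne]
        intro h3
        apply h
        rw [← h3]
        simp
  · intro z n h
    have := size_ofL n (List.ofFn fun i => z (e.symm i)) (by
      intro a ha
      rw [List.mem_ofFn] at ha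
      obtain ⟨i, rfl⟩ := ha
      exact h _)
    rwa [List.length_ofFn] at this

end Pool.Agent.Helper26.EC
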