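import Mathlib
import Pool.Agent.Helper26.EC.Advantage
import Pool.Agent.Helper26.EC.Gap
import Pool.Agent.Helper26.EC.Law
import Pool.Agent.Helper26.EC.Tuples
import Pool.Agent.Helper26.EC.Words
import Pool.Agent.Helper26.EC.Hom

/-! EC-12: if `(G, f)` has no fractional embedding into `(G', f')`, then inclusion of the classes
puts coNP into NP/poly. -/

set_option autoImplicit false

open Polynomial

namespace Pool.Agent.Helper26.EC

open D

open Classical in
theorem fracLE_or_NPpoly {G G' K : Type} [Lattice G] [OrderTop G] [Fintype G]
    [Lattice G'] [OrderTop G'] [Fintype G'] (f : G → K) (f' : G' → K)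
    (h : NPclass f ⊆ NPclass f') (hn : ¬ FracLE f f') (L : D → Prop) (hL : Sig 1 L) :
    NPpoly (fun x => ¬ L x) := by
  classical
  obtain ⟨tup, get, upd, hget, hupd, hgt, hut, htsz⟩ := exists_tuples G
  obtain ⟨dec, hdc, fd, hfd, hfd2⟩ := exists_dec
  obtain ⟨fc, hfc, hfc2⟩ := exists_PT_cod
  obtain ⟨S, hS⟩ := exists_universal hL get hget dec fd hfd hfd2
  obtain ⟨S', hS'⟩ := h ⟨S, rfl⟩
  obtain ⟨m, hm, hmp⟩ := NPHom.exists_min (K := K) S
  obtain ⟨m', hm', hmp'⟩ := NPHom.exists_min (K := K) S'
  -- labels agree
  have hlab : ∀ w, f' (m' w) = f (m w) := by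
    intro w
    have h1 : w ∈ S.part f (f (m w)) := (hmp f _ w).2 rfl
    rw [hS'] at h1
    exact (hmp' f' _ w).1 h1
  -- the value of m
  have hmv : ∀ w, m w = Finset.univ.inf fun b => if L (get b (dec w)) then b else ⊤ := by
    intro w
    apply le_antisymm
    · exact (hm w _).1 ((hS w _).2 le_rfl)
    · exact (hS w _).1 ((hm w _).2 le_rfl)
  obtain ⟨ε, hε, hgap⟩ := exists_gap f f' hn
  -- tests
  let tag : G × Finset G' → D := fun p => ofL (List.replicate ((Fintype.equivFin (G × Finset G')) p) leaf)
  have htag : Function.Injective tag := by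
    intro p q hpq
    have h1 := congrArg (fun t => (toL t).length) hpq
    simp only [tag, toL_ofL, List.length_replicate] at h1
    exact (Fintype.equivFin _).injective (Fin.ext h1)
  let N : D → Prop := fun v => ∃ p : G × Finset G', fst (fst v) = tag p ∧
    ∃ c : G', c ∈ p.2 ∧ cod (upd p.1 (node (snd (fst v)) (snd v))) ∈ S'.S c
  have hN : Sig 1 N := by
    apply Sig.exists_finite
    intro p
    apply Sig.and
    · exact ((PDec.eq_const PT.fst _).comp PT.fst).sig 1
    · apply Sig.exists_finite
      intro c
      apply Sig.and
      · by_cases hc : c ∈ p.2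
        · exact Sig.congr (PDec.sig ⟨fun _ => node leaf leaf, PT.const _, fun x => by simp⟩ 1)
            (R := fun _ => True) (fun x => by simp [hc])
        · exact Sig.congr (PDec.sig ⟨fun _ => leaf, PT.const _, fun x => by simp⟩ 1)
            (R := fun _ => False) (fun x => by simp [hc])
      · obtain ⟨R, hR, hR2⟩ := S'.mem_NP c
        have h1 := hR.comp (hfc.comp ((hupd p.1).comp
          (PT.pair (PT.snd.comp PT.fst) PT.snd)))
        exact Sig.congr h1 fun x => by rw [hR2, hfc2]
  -- the polynomial bound
  obtain ⟨M, hM⟩ : ∃ M : ℕ, ∀ p, size (tag p) ≤ M :=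
    ⟨∑ p, size (tag p), fun p => Finset.single_le_sum (f := fun p => size (tag p))
      (fun _ _ => Nat.zero_le _) (Finset.mem_univ p)⟩
  have hcard : (0 : ℝ) < Fintype.card G + 1 := by positivity
  refine NPpoly_of_advantage hN (C (Fintype.card G) * (X + 1) + C (M + 2)) (ε / (2 * (Fintype.card G + 1)))
    (by positivity) ?_
  intro n X μ ν hX hμ hν hμL hνL hμ1 hν1
  by_contra hcon
  push Not at hcon
  -- finite type of strings
  let Y := {x : D // x ∈ X}
  let μ' : Y → ℝ := fun x => μ x.1
  let ν' : Y → ℝ := fun x => ν x.1
  have hμ'1 : ∑ x, μ' x = 1 := by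
    rw [← hμ1]; exact Finset.sum_coe_sort X μ
  have hν'1 : ∑ x, ν' x = 1 := by
    rw [← hν1]; exact Finset.sum_coe_sort X ν
  let H : (G → Y) → G' := fun z => m' (cod (tup fun b => (z b).1))
  let pat : G → Finset G := fun b => Finset.univ.filter fun c => b ≤ c
  let w : G → G' → ℝ := fun b => law μ' ν' H (pat b)
  obtain ⟨b, b', hbb, E, hE, hbig⟩ := hgap w
    (fun b c => law_nonneg _ _ (fun x => hμ _) (fun x => hν _) _ _ _)
    (fun b => law_sum _ _ hμ'1 hν'1 _ _)
    (by
      intro b c hc
      obtain ⟨z, hz, hz1, hz2⟩ := exists_of_law_ne_zero _ _ _ _ _ hc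
      rw [← hz]
      simp only [H]
      rw [hlab, hmv]
      congr 1
      rw [hdc]
      simp only [hgt]
      apply le_antisymm
      · have : L ((z b).1) := hνL _ (hz1 b (by simp [pat]))
        refine (Finset.inf_le (f := fun b => if L ((z b).1) then b else ⊤)
          (Finset.mem_univ b)).trans ?_
        simp [this]
      · apply Finset.le_inf
        intro c _
        by_cases hcb : b ≤ c
        · split_ifs
          · exact hcb
          · exact le_top
        · have : ¬ L ((z c).1) := hμL _ (hz2 c (by simp [pat, hcb]))
          simp [this])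
  have hsub : pat b' ⊆ pat b := by
    intro c hc
    simp only [pat, Finset.mem_filter, Finset.mem_univ, true_and] at hc ⊢
    exact hbb.trans hc
  have hhyb := law_hybrid μ' ν' (fun x => hμ _) (fun x => hν _) hμ'1 hν'1 H E
    (ε / (2 * (Fintype.card G + 1))) (by positivity) (by
      intro z i
      have hsz : size (node (tag (i, E)) (tup fun b => (z b).1)) ≤
          (C (Fintype.card G) * (Polynomial.X + 1) + C (M + 2) : ℕ[X]).eval n := by
        have h1 := htsz (fun b => (z b).1) n (fun b => (hX _).1 (z b).2)
        have h2 := hM (i, E)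
        simp only [size]
        simp
        nlinarith
      have hc := hcon _ hsz
      have e1 : ∀ ρ : D → ℝ, ∑ x : Y, ρ x.1 * (if H (Function.update z i x) ∈ E then 1 else 0) =
          ∑ x ∈ X, ρ x * (if N (node (node (tag (i, E)) (tup fun b => (z b).1)) x) then 1 else 0) := by
        intro ρ
        rw [← Finset.sum_coe_sort X]
        apply Finset.sum_congr rfl
        intro x _
        congr 1
        have hiff : H (Function.update z i x) ∈ E ↔
            N (node (node (tag (i, E)) (tup fun b => (z b).1)) x.1) := by
          have hup : (tup fun b => ((Function.update z i x) b).1) =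
              upd i (node (tup fun b => (z b).1) x.1) := by
            rw [hut]
            congr 1
            funext b
            by_cases hb : b = i
            · subst hb; simp
            · simp [hb]
          constructor
          · intro hmem
            refine ⟨(i, E), rfl, _, hmem, ?_⟩
            rw [hm']
            simp only [H]
            rw [hup]
            exact le_rfl
          · rintro ⟨p, hp, c, hcp, hcS⟩
            have hpe : p = (i, E) := (htag hp).symm
            subst hpe
            rw [hm'] at hcS
            have : H (Function.update z i x) ≤ c := by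
              simp only [H]
              rw [hup]
              exact hcS
            exact hE this hcp
        simp only [hiff]
      rw [e1 μ, e1 ν]
      refine le_of_eq_of_le ?_ hc.le
      congr!) (pat b') (pat b) hsub
  have h3 : ε ≤ (Fintype.card G : ℝ) * (ε / (2 * (Fintype.card G + 1))) := hbig.trans hhyb
  have h4 : (Fintype.card G : ℝ) * (ε / (2 * (Fintype.card G + 1))) < ε := by
    rw [← mul_div_assoc, div_lt_iff₀ (by positivity)]
    have : (0 : ℝ) ≤ Fintype.card G := by positivity
    nlinarith
  linarith

end Pool.Agent.Helper26.EC
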