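import Mathlib
import Pool.Agent.Helper26.EC.Defs2
import Pool.Agent.Helper26.EC.Basic
import Pool.Agent.Helper26.EC.Sig

set_option autoImplicit false

open Polynomial

namespace Pool.Agent.Helper26.EC

open D

/-! ### EC-4 Yap's theorem -/

/-- If `coNP ⊆ NP/poly`, then `Π_3 ⊆ Σ_3`. -/
theorem sig_three_of_not (h : ∀ L, Sig 1 L → NPpoly (fun x => ¬ L x)) {R : D → Prop}
    (hR : Sig 3 (fun x => ¬ R x)) : Sig 3 R := by
  obtain ⟨Q1, p1, hQ1, hb1, hR1⟩ := hR
  obtain ⟨Q2, p2, hQ2, hb2, hR2⟩ := hQ1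
  -- `V` is the certificate property, `q` bounds the advice
  obtain ⟨V, q, hV, hadv⟩ := h (fun z => ¬ Q2 z) hQ2
  obtain ⟨c1, hc1, hc1b⟩ := exists_clock p1
  obtain ⟨c2, hc2, hc2b⟩ := exists_clock p2
  obtain ⟨cq, hcq, hcqb⟩ := exists_clock q
  -- unfolding of `R`
  have hRx : ∀ x, R x ↔ ∀ y, size y ≤ size (c1 x) → ∃ w, Q2 (node (node x y) w) := by
    intro x
    constructor
    · intro hx y _
      have h1 : ¬ Q1 (node x y) := fun hq => ((hR1 x).2 ⟨y, hq⟩) hx
      exact (hR2 _).1 h1
    · intro hx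
      by_contra hn
      obtain ⟨y, hy⟩ := (hR1 x).1 hn
      have hs : size y ≤ size (c1 x) := le_trans (hb1 x y hy) (hc1b x)
      exact ((hR2 (node x y)).2 (hx y hs)) hy
  -- the clocks
  let z : D → D := fun x => node x (c1 x)
  have hz : PT z := PT.pair PT.id hc1
  let c3 : D → D := fun x => c2 (z x)
  have hc3 : PT c3 := PT.comp hc2 hz
  let c4 : D → D := fun x => node (z x) (c3 x)
  have hc4 : PT c4 := PT.pair hz hc3
  let c5 : D → D := fun x => cq (c4 x)
  have hc5 : PT c5 := PT.comp hcq hc4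
  -- the three conditions on `u = node x a`
  let A : D → Prop := fun u => ∀ v, size v ≤ size (c4 (fst u)) → (¬ Q2 v ∨ V (node (snd u) v))
  let B : D → Prop := fun u => ∀ v, size v ≤ size (c4 (fst u)) → (¬ V (node (snd u) v) ∨ Q2 v)
  let C : D → Prop := fun u => ∀ y, size y ≤ size (c1 (fst u)) →
    ∃ w, size w ≤ size (c3 (fst u)) ∧ V (node (snd u) (node (node (fst u) y) w))
  have hfs : PT (fun u => D.fst u) := PT.fst
  have hsn : PT (fun u => D.snd u) := PT.snd
  have hA : Sig 2 (fun u => ¬ A u) := by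
    have h1 : Sig 1 (fun t => ¬ Q2 (snd t) ∨ V (node (snd (fst t)) (snd t))) :=
      Sig.or (Sig.comp hQ2 PT.snd)
        (Sig.comp hV (PT.pair (PT.comp PT.snd PT.fst) PT.snd))
    have h2 : Sig 2 (fun t => ¬ (¬ Q2 (snd t) ∨ V (node (snd (fst t)) (snd t)))) :=
      Sig.succ_of_not (Sig.congr h1 (fun x => not_not.symm))
    exact Sig.allBdd (R := fun t => ¬ Q2 (snd t) ∨ V (node (snd (fst t)) (snd t)))
      (c := fun u => c4 (fst u)) h2 (PT.comp hc4 PT.fst)
  have hB : Sig 2 (fun u => ¬ B u) := by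
    have h1 : Sig 1 (fun t => V (node (snd (fst t)) (snd t)) ∧ ¬ Q2 (snd t)) :=
      Sig.and (Sig.comp hV (PT.pair (PT.comp PT.snd PT.fst) PT.snd)) (Sig.comp hQ2 PT.snd)
    have h2 : Sig 1 (fun t => ¬ (¬ V (node (snd (fst t)) (snd t)) ∨ Q2 (snd t))) :=
      Sig.congr h1 (fun x => by rw [not_or, not_not])
    exact Sig.succ (Sig.allBdd (R := fun t => ¬ V (node (snd (fst t)) (snd t)) ∨ Q2 (snd t))
      (c := fun u => c4 (fst u)) h2 (PT.comp hc4 PT.fst))
  have hC : Sig 2 (fun u => ¬ C u) := by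
    have h1 : Sig 1 (fun s => V (node (snd (fst (fst s)))
        (node (node (fst (fst (fst s))) (snd (fst s))) (snd s)))) :=
      Sig.comp hV (PT.pair (PT.comp PT.snd (PT.comp PT.fst PT.fst))
        (PT.pair (PT.pair (PT.comp PT.fst (PT.comp PT.fst PT.fst)) (PT.comp PT.snd PT.fst))
          PT.snd))
    have h2 := Sig.exBdd (c := fun t => c3 (fst (fst t))) h1
      (PT.comp hc3 (PT.comp PT.fst PT.fst))
    have h3 : Sig 2 (fun t => ¬ ∃ w, size w ≤ size (c3 (fst (fst t))) ∧
        V (node (snd (fst t)) (node (node (fst (fst t)) (snd t)) w))) :=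
      Sig.succ_of_not (Sig.congr h2 (fun x => not_not.symm))
    exact Sig.allBdd (R := fun t => ∃ w, size w ≤ size (c3 (fst (fst t))) ∧
        V (node (snd (fst t)) (node (node (fst (fst t)) (snd t)) w)))
      (c := fun u => c1 (fst u)) h3 (PT.comp hc1 PT.fst)
  have hABC : Sig 3 (fun u => A u ∧ B u ∧ C u) := by
    apply Sig.succ_of_not
    refine Sig.congr (Sig.or hA (Sig.or hB hC)) (fun u => ?_)
    tauto
  have hfin := Sig.exBdd hABC hc5
  refine Sig.congr hfin (fun x => ?_)
  constructor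
  · rintro ⟨a, -, hA', hB', hC'⟩
    rw [hRx]
    intro y hy
    obtain ⟨w, hw, hV'⟩ := hC' y hy
    refine ⟨w, ?_⟩
    have hsz : size (node (node x y) w) ≤ size (c4 x) := by
      have e1 : size (node (node x y) w) = (size x + size y + 1) + size w + 1 := rfl
      have e2 : size (c4 x) = (size x + size (c1 x) + 1) + size (c3 x) + 1 := rfl
      have hw' : size w ≤ size (c3 x) := hw
      omega
    rcases hB' (node (node x y) w) hsz with h1 | h1
    · exact absurd hV' h1
    · exact h1
  · intro hx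
    rw [hRx] at hx
    obtain ⟨a, ha, ha'⟩ := hadv (size (c4 x))
    refine ⟨a, le_trans ha (hcqb _), ?_, ?_, ?_⟩
    · intro v hv
      by_cases hq : Q2 v
      · right
        exact (ha' v hv).1 (not_not.2 hq)
      · left; exact hq
    · intro v hv
      by_cases hq : V (node a v)
      · right
        exact not_not.1 ((ha' v hv).2 hq)
      · left; exact hq
    · intro y hy
      have hy' : size y ≤ size (c1 x) := hy
      obtain ⟨w, hw⟩ := hx y hy'
      have e3 : size (node x y) ≤ size (z x) := by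
        have e1 : size (node x y) = size x + size y + 1 := rfl
        have e2 : size (z x) = size x + size (c1 x) + 1 := rfl
        omega
      have hwb : size w ≤ size (c3 x) :=
        le_trans (hb2 _ _ hw) (le_trans (eval_mono p2 e3) (hc2b _))
      refine ⟨w, hwb, ?_⟩
      have hsz : size (node (node x y) w) ≤ size (c4 x) := by
        have e1 : size (node (node x y) w) = (size x + size y + 1) + size w + 1 := rfl
        have e2 : size (c4 x) = (size x + size (c1 x) + 1) + size (c3 x) + 1 := rfl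
        omega
      exact (ha' _ hsz).1 (not_not.2 hw)

theorem sig_three_of_sig (h : ∀ L, Sig 1 L → NPpoly (fun x => ¬ L x)) (m : ℕ) :
    ∀ R : D → Prop, Sig m R → Sig 3 R := by
  induction m with
  | zero => exact fun R hR => PDec.sig hR 3
  | succ m ih =>
    rintro R ⟨Q, p, hQ, hb, hR⟩
    have h1 : Sig 3 Q := sig_three_of_not h (ih _ hQ)
    exact Sig.congr (Sig.ex h1 p hb) (fun x => (hR x).symm)

theorem yap (h : ∀ L, Sig 1 L → NPpoly (fun x => ¬ L x)) : PHCollapses := by
  refine ⟨3, fun m A hA => ?_⟩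
  obtain ⟨R, hR, hA'⟩ := hA
  exact ⟨R, sig_three_of_sig h m R hR, hA'⟩

end Pool.Agent.Helper26.EC
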