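import Mathlib
import Pool.Agent.Helper26.EC.Main
import Pool.Agent.Helper26.EC.Embed
import Pool.Agent.Helper26.EC.Yap
import Pool.Agent.Helper26.EC.Fold

/-! Final assembly of project EC. -/

set_option autoImplicit false

namespace Pool.Agent.Helper26.EC

theorem fracLE_of_subset (hPH : ¬ PHCollapses) {G G' K : Type} [Lattice G] [OrderTop G]
    [Fintype G] [Lattice G'] [OrderTop G'] [Fintype G'] (f : G → K) (f' : G' → K)
    (h : NPclass f ⊆ NPclass f') : FracLE f f' := by
  by_contra hn
  exact hPH (yap fun L hL => fracLE_or_NPpoly f f' h hn L hL)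

theorem foldLE_of_subset (hPH : ¬ PHCollapses) {G G' K : Type} [Lattice G] [OrderTop G]
    [Fintype G] [Lattice G'] [OrderTop G'] [Fintype G'] (f : G → K) (f' : G' → K)
    (h : NPclass f ⊆ NPclass f') : FoldLE f f' :=
  (fracLE_of_subset hPH f f' h).foldLE

end Pool.Agent.Helper26.EC
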